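import Pool.Agent.Lib.MP_0e6cae_nt.OM5.SecB
import Pool.Agent.Lib.MP_0e6cae_nt.KF.Sym

/-!
The condition `Rat` for rational elements, in particular for symmetric groups.
-/

namespace Pool.Agent.Lib.MP_0e6cae_nt.OM5

open SW DH

variable {N Q G : Type} [Group N] [Group Q] [Group G]

/-- A number prime to `c` is congruent modulo `c` to a number prime to a multiple of `c`. -/
theorem cls_lift (c n a : ℕ) (hn : n ≠ 0) (hc : c ∣ n) (ha : a.Coprime c) :
    ∃ b : ℕ, b.Coprime n ∧ b ≡ a [MOD c] := by
  have : NeZero n := ⟨hn⟩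
  obtain ⟨v, hv⟩ := ZMod.unitsMap_surjective hc (ZMod.unitOfCoprime a ha)
  refine ⟨(v : ZMod n).val, ZMod.val_coe_unit_coprime v, ?_⟩
  have h1 := congrArg (fun w : (ZMod c)ˣ => (w : ZMod c)) hv
  have h2 : ((v : ZMod n).val : ZMod c) = (a : ZMod c) := by
    rw [ZMod.natCast_val]
    simpa [ZMod.unitsMap, ZMod.castHom_apply] using h1
  exact (ZMod.natCast_eq_natCast_iff _ _ _).1 h2

/-- (Choose `a' ≡ a` modulo `|C|` prime to `|N|`, `ZMod.unitsMap_surjective`; `n ↦ n^a'` is a
permutation of `N` which maps the elements over `j z` to those over `j (z^a') = j (z^a)`, and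
`f(n^a')` is conjugate to `f n`.) -/
theorem rat_of_conj [Finite N] (π : N →* Q) (hπ : Function.Surjective π) (f : N →* G)
    {C : Type} [CommGroup C] [Finite C] (j : C →* Q) (hj : Function.Injective j)
    (h : ∀ (n : N) (a : ℕ), a.Coprime (orderOf n) → IsConj (f n) (f n ^ a)) : Rat π f j := by
  intro a ha z g
  have hQ : Finite Q := Finite.of_surjective π hπ
  have hQN : Nat.card Q ∣ Nat.card N := Subgroup.card_dvd_of_surjective π hπ
  have hCQ : Nat.card C ∣ Nat.card Q := Subgroup.card_dvd_of_injective j hj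
  obtain ⟨b, hb, hba⟩ := cls_lift (Nat.card C) (Nat.card N) a Nat.card_pos.ne'
    (hCQ.trans hQN) ha
  have hzb : z ^ b = z ^ a := by
    rw [pow_eq_pow_iff_modEq]
    exact hba.of_dvd (orderOf_dvd_natCard z)
  have hbQ : (Nat.card Q).Coprime b := (Nat.Coprime.coprime_dvd_right hQN hb).symm
  refine Nat.card_congr (Equiv.subtypeEquiv (powCoprime hb.symm) fun n => ?_)
  have hnb : b.Coprime (orderOf n) := Nat.Coprime.coprime_dvd_right (orderOf_dvd_natCard n) hb
  have h1 : π (n ^ b) = j (z ^ a) ↔ π n = j z := by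
    rw [← hzb, map_pow, map_pow]
    constructor
    · intro h2
      exact (powCoprime hbQ).injective h2
    · intro h2
      rw [h2]
  have h2 : IsConj (f (n ^ b)) g ↔ IsConj (f n) g := by
    rw [map_pow]
    exact ⟨fun h3 => (h n b hnb).trans h3, fun h3 => (h n b hnb).symm.trans h3⟩
  rw [powCoprime_apply, h1, h2]

/-- The same for a homomorphism to a group isomorphic to a symmetric group. -/
theorem rat_of_perm [Finite N] (π : N →* Q) (hπ : Function.Surjective π) (f : N →* G)
    (hf : Function.Injective f) {C : Type} [CommGroup C] [Finite C] (j : C →* Q)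
    (hj : Function.Injective j) (m : ℕ) (e : G ≃* Equiv.Perm (Fin m)) : Rat π f j := by
  refine rat_of_conj π hπ f j hj fun n a ha => ?_
  have hord : orderOf (e (f n)) = orderOf n := by
    rw [MulEquiv.orderOf_eq]
    exact orderOf_injective f hf n
  have h1 : IsConj (e (f n)) (e (f n) ^ a) := by
    rw [Equiv.Perm.isConj_iff_cycleType_eq, KF.cycleType_pow_coprime (e (f n)) a (by rwa [hord])]
  have h2 := MonoidHom.map_isConj e.symm.toMonoidHom h1
  rw [map_pow] at h2
  have h3 : e.symm.toMonoidHom (e (f n)) = f n := e.symm_apply_apply _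
  rwa [h3] at h2

end Pool.Agent.Lib.MP_0e6cae_nt.OM5
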