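import Pool.Agent.Lib.MP_0e6cae_nt.OM5.Wp

/-!
The fixed points of free and of projective modules.
-/

open CategoryTheory

namespace Pool.Agent.Lib.MP_0e6cae_nt.OM5

open SW

variable {N Q : Type} [Group N] [Group Q] (π : N →* Q) (hπ : Function.Surjective π)

/-- The coefficient at `m` of `n w`. -/
theorem fixF_coeff {K : Type} [Group K] (n m : K) (w : MonoidAlgebra ℤ K) :
    ((MonoidAlgebra.single n (1 : ℤ) : MonoidAlgebra ℤ K) * w).coeff m = w.coeff (n⁻¹ * m) := by
  have h1 : ((MonoidAlgebra.single n (1 : ℤ) : MonoidAlgebra ℤ K) * w).coeff m =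
      1 * w.coeff (n⁻¹ * m) := by
    refine MonoidAlgebra.coeff_single_mul_eq_mul_coeff (n⁻¹ * m) ?_
    intro l _
    exact ⟨fun h3 => by rw [← h3, inv_mul_cancel_left],
      fun h3 => by rw [h3, mul_inv_cancel_left]⟩
  rw [h1, one_mul]

/-- The element with the coefficients `n ↦ z(π n)`. -/
noncomputable def fixF_pull [Finite N] (z : MonoidAlgebra ℤ Q) : MonoidAlgebra ℤ N :=
  MonoidAlgebra.ofCoeff (Finsupp.equivFunOnFinite.symm fun n => z.coeff (π n))

theorem fixF_pull_coeff [Finite N] (z : MonoidAlgebra ℤ Q) (n : N) :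
    (fixF_pull π z).coeff n = z.coeff (π n) := rfl

theorem fixF_pull_smul [Finite N] (z : MonoidAlgebra ℤ Q) (n : N) :
    (MonoidAlgebra.single n (1 : ℤ) : MonoidAlgebra ℤ N) * fixF_pull π z =
      fixF_pull π ((MonoidAlgebra.single (π n) (1 : ℤ) : MonoidAlgebra ℤ Q) * z) := by
  ext m
  rw [fixF_coeff, fixF_pull_coeff, fixF_pull_coeff, fixF_coeff, map_mul, map_inv]

theorem fixF_pull_fixed [Finite N] (z : MonoidAlgebra ℤ Q) (n : N) (hn : π n = 1) :
    (MonoidAlgebra.single n (1 : ℤ) : MonoidAlgebra ℤ N) * fixF_pull π z = fixF_pull π z := by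
  rw [fixF_pull_smul, hn, ← MonoidAlgebra.one_def, one_mul]

theorem fixF_pull_add [Finite N] (z w : MonoidAlgebra ℤ Q) :
    fixF_pull π (z + w) = fixF_pull π z + fixF_pull π w := by
  ext m
  rw [MonoidAlgebra.coeff_add, Finsupp.add_apply, fixF_pull_coeff, fixF_pull_coeff,
    fixF_pull_coeff, MonoidAlgebra.coeff_add, Finsupp.add_apply]

/-- The map `ℤ[Q]^t → (ℤ[N]^t)^H`. -/
noncomputable def fixF_map [Finite N] (t : ℕ) :
    (Fin t → MonoidAlgebra ℤ Q) →+ FixM π hπ (Fin t → MonoidAlgebra ℤ N) :=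
  AddMonoidHom.mk' (fun z => FixM.mk (fun i => fixF_pull π (z i)) fun n hn =>
      funext fun i => fixF_pull_fixed π (z i) n hn)
    (fun z w => FixM.ext (funext fun i => fixF_pull_add π (z i) (w i)))

theorem fixF_map_val [Finite N] (t : ℕ) (z : Fin t → MonoidAlgebra ℤ Q) (i : Fin t) :
    (fixF_map π hπ t z).val i = fixF_pull π (z i) := rfl

theorem fixF_map_single [Finite N] (t : ℕ) (q : Q) (z : Fin t → MonoidAlgebra ℤ Q) :
    fixF_map π hπ t ((MonoidAlgebra.single q (1 : ℤ) : MonoidAlgebra ℤ Q) • z) =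
      (MonoidAlgebra.single q (1 : ℤ) : MonoidAlgebra ℤ Q) • fixF_map π hπ t z := by
  obtain ⟨n, rfl⟩ := hπ q
  refine FixM.ext ?_
  rw [FixM.single_smul]
  funext i
  exact (fixF_pull_smul π (z i) n).symm

theorem fixF_map_bij [Finite N] (t : ℕ) : Function.Bijective (fixF_map π hπ t) := by
  have hQ : Finite Q := Finite.of_surjective π hπ
  constructor
  · intro z w hzw
    funext i
    ext q
    obtain ⟨n, rfl⟩ := hπ q
    have h1 := congrArg (fun y => (FixM.val y i).coeff n) hzw
    exact h1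
  · intro y
    refine ⟨fun i => MonoidAlgebra.ofCoeff (Finsupp.equivFunOnFinite.symm fun q =>
      (y.val i).coeff (Function.surjInv hπ q)), FixM.ext ?_⟩
    funext i
    ext n
    change (y.val i).coeff (Function.surjInv hπ (π n)) = (y.val i).coeff n
    set m := Function.surjInv hπ (π n) with hm
    have h1 : π (n * m⁻¹) = 1 := by
      rw [map_mul, map_inv, hm, Function.surjInv_eq hπ, mul_inv_cancel]
    have h2 := congrArg (fun y => (y i).coeff n) (y.prop (n * m⁻¹) h1)
    have h3 := fixF_coeff (n * m⁻¹) n (y.val i)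
    have h4 : (n * m⁻¹)⁻¹ * n = m := by group
    rw [h4] at h3
    exact h3.symm.trans h2

/-- (`z ∈ ℤ[Q]^t` corresponds to the element with the coefficients `n ↦ z(π n)`.) -/
theorem fix_free [Finite N] (t : ℕ) : Nonempty (FixM π hπ (Fin t → MonoidAlgebra ℤ N)
    ≃ₗ[MonoidAlgebra ℤ Q] (Fin t → MonoidAlgebra ℤ Q)) := by
  refine ⟨(LinearEquiv.ofBijective
    ({ toFun := fixF_map π hπ t
       map_add' := map_add _
       map_smul' := fun r z => by
         rw [lin_of_single _ (fixF_map_single π hπ t)]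
         rfl } : (Fin t → MonoidAlgebra ℤ Q) →ₗ[MonoidAlgebra ℤ Q]
          FixM π hπ (Fin t → MonoidAlgebra ℤ N)) (fixF_map_bij π hπ t)).symm⟩

/-- Isomorphic modules have isomorphic fixed points. -/
theorem fix_equiv {M M' : Type} [AddCommGroup M] [Module (MonoidAlgebra ℤ N) M]
    [AddCommGroup M'] [Module (MonoidAlgebra ℤ N) M'] (e : M ≃ₗ[MonoidAlgebra ℤ N] M') :
    Nonempty (FixM π hπ M ≃ₗ[MonoidAlgebra ℤ Q] FixM π hπ M') := by
  refine ⟨LinearEquiv.ofLinearMap (FixM.map π hπ e.toLinearMap) (FixM.map π hπ e.symm.toLinearMap)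
    (LinearMap.ext fun y => FixM.ext ?_) (LinearMap.ext fun y => FixM.ext ?_)⟩
  · exact e.apply_symm_apply y.val
  · exact e.symm_apply_apply y.val

/-- (A direct summand of `ℤ[N]^t`.) -/
theorem fix_projective [Finite N] (P : Type) [AddCommGroup P] [Module (MonoidAlgebra ℤ N) P]
    [Module.Finite (MonoidAlgebra ℤ N) P] [Module.Projective (MonoidAlgebra ℤ N) P] :
    Module.Projective (MonoidAlgebra ℤ Q) (FixM π hπ P) := by
  obtain ⟨t, f, hf⟩ := Module.Finite.exists_fin' (MonoidAlgebra ℤ N) P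
  obtain ⟨s, hs⟩ := Module.projective_lifting_property f LinearMap.id hf
  obtain ⟨e⟩ := fix_free π hπ t
  have h1 : Module.Projective (MonoidAlgebra ℤ Q)
      (FixM π hπ (Fin t → MonoidAlgebra ℤ N)) := Module.Projective.of_equiv e.symm
  refine Module.Projective.of_split (FixM.map π hπ s) (FixM.map π hπ f)
    (LinearMap.ext fun y => FixM.ext ?_)
  exact LinearMap.congr_fun hs y.val

/-- (A subgroup of a finitely generated abelian group.) -/
theorem fix_finite [Finite N] (M : Type) [AddCommGroup M] [Module (MonoidAlgebra ℤ N) M]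
    [Module.Finite (MonoidAlgebra ℤ N) M] : Module.Finite (MonoidAlgebra ℤ Q) (FixM π hπ M) := by
  have h1 : Module.Finite ℤ (MonoidAlgebra ℤ N) :=
    Module.Finite.of_surjective (MonoidAlgebra.coeffLinearEquiv ℤ).symm.toLinearMap
      (MonoidAlgebra.coeffLinearEquiv ℤ).symm.surjective
  have h2 : Module.Finite ℤ M := Module.Finite.trans (MonoidAlgebra ℤ N) M
  have h3 : IsNoetherian ℤ M := isNoetherian_of_isNoetherianRing_of_finite ℤ M
  have h4 : Module.Finite ℤ (FixM π hπ M) :=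
    Module.Finite.of_injective (FixM.valHom π hπ M).toIntLinearMap fun _ _ h => FixM.ext h
  exact Module.Finite.of_restrictScalars_finite ℤ (MonoidAlgebra ℤ Q) (FixM π hπ M)

end Pool.Agent.Lib.MP_0e6cae_nt.OM5
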