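import Pool.Agent.Lib.MP_0e6cae_nt.OM5.Wp
import Pool.Agent.Lib.MP_0e6cae_nt.OM5.FixF
import Pool.Agent.Lib.MP_0e6cae_nt.KF.ResB

/-!
The classes of the fixed points of modules of finite projective dimension.
-/

open CategoryTheory

namespace Pool.Agent.Lib.MP_0e6cae_nt.OM5

open SW KF

variable {N Q G : Type} [Group N] [Group Q] [Group G]

/-- The quotient of a projective module by a projective submodule. -/
theorem ka_fpd {R : Type} [Ring R] {L F A : Type} [AddCommGroup L] [Module R L]
    [AddCommGroup F] [Module R F] [AddCommGroup A] [Module R A] (φ : L →ₗ[R] F) (ψ : F →ₗ[R] A)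
    (h1 : Function.Injective φ) (h2 : Function.Exact φ ψ) (h3 : Function.Surjective ψ)
    (hL : Module.Projective R L) (hF : Module.Projective R F) :
    ∃ n : ℕ, HasProjectiveDimensionLE (ModuleCat.of R A) n := by
  refine ⟨1, ?_⟩
  have hker : LinearMap.ker ψ = LinearMap.range φ := LinearMap.exact_iff.1 h2
  have e : L ≃ₗ[R] LinearMap.ker ψ :=
    (LinearEquiv.ofInjective φ h1).trans (LinearEquiv.ofEq _ _ hker.symm)
  have hK : Module.Projective R (LinearMap.ker ψ) := Module.Projective.of_equiv e
  have hS := LinearMap.shortExact_shortComplexKer h3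
  refine hS.hasProjectiveDimensionLT_X₃ 1 ?_ ?_
  · have : Projective (ModuleCat.of R (LinearMap.ker ψ)) :=
      (IsProjective.iff_projective (R := R) _).1 hK
    exact (projective_iff_hasProjectiveDimensionLE_zero
      (ModuleCat.of R (LinearMap.ker ψ))).1 this
  · have : Projective (ModuleCat.of R F) := (IsProjective.iff_projective _).1 hF
    have h0 : HasProjectiveDimensionLT (ModuleCat.of R F) 1 :=
      (projective_iff_hasProjectiveDimensionLE_zero _).1 this
    exact hasProjectiveDimensionLT_of_ge _ 1 2 (by omega)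

/-- (`0 → L → ℤ[G]^k → A → 0` with `L` projective, as in `DH.res_all'`; the fixed points are exact
by `fix_surj_projective`; `fix_projective`.) -/
theorem fix_fpd [Finite N] [Finite G] (π : N →* Q) (hπ : Function.Surjective π) (f : N →* G)
    (hf : Function.Injective f) (A : Type) [AddCommGroup A] [Module (MonoidAlgebra ℤ G) A]
    (hA : Module.Finite (MonoidAlgebra ℤ G) A)
    (hA' : ∃ n : ℕ, HasProjectiveDimensionLE (ModuleCat.of (MonoidAlgebra ℤ G) A) n) :
    ∃ n : ℕ, HasProjectiveDimensionLE
      (ModuleCat.of (MonoidAlgebra ℤ Q) (FixM π hπ (ResF f A))) n := by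
  obtain ⟨k, q, hq⟩ := Module.Finite.exists_fin' (MonoidAlgebra ℤ G) A
  have hFZ : Module.Finite ℤ (Fin k → MonoidAlgebra ℤ G) := Module.Finite.trans (MonoidAlgebra ℤ G) _
  have hL : Module.Finite (MonoidAlgebra ℤ G) (LinearMap.ker q) := by
    have : Module.Finite ℤ (LinearMap.ker q) := by
      have h1 : Module.Finite ℤ (LinearMap.ker q.toAddMonoidHom.toIntLinearMap) := inferInstance
      exact h1
    exact Module.Finite.of_restrictScalars_finite ℤ _ _
  have hLfpd := fpd_left (LinearMap.ker q).subtype q Subtype.val_injective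
    (LinearMap.exact_subtype_ker_map q) hq hA'
  obtain ⟨n, hn⟩ := hLfpd
  have hLp : Module.Projective (MonoidAlgebra ℤ G) (LinearMap.ker q) :=
    projective_of_lattice (LinearMap.ker q)
      (fun m y hm hy => by
        have h1 : m • (y : Fin k → MonoidAlgebra ℤ G) = 0 := congrArg Subtype.val hy
        refine Subtype.ext ?_
        funext i
        have h2 : m • (y : Fin k → MonoidAlgebra ℤ G) i = 0 := congrFun h1 i
        ext a
        let ψ : MonoidAlgebra ℤ G →+ ℤ :=
          { toFun := fun y => y.coeff a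
            map_zero' := by simp
            map_add' := fun y z => by simp }
        have h3 : m * ((y : Fin k → MonoidAlgebra ℤ G) i).coeff a = 0 := by
          have h4 := map_zsmul ψ m ((y : Fin k → MonoidAlgebra ℤ G) i)
          rw [h2, map_zero, smul_eq_mul] at h4
          exact h4.symm
        exact (mul_eq_zero.1 h3).resolve_left hm) n hn
  let ψ : ResF f (Fin k → MonoidAlgebra ℤ G) →ₗ[MonoidAlgebra ℤ N] ResF f A := ResF.map f q
  let χ : ResF f (LinearMap.ker q) →ₗ[MonoidAlgebra ℤ N] ResF f (Fin k → MonoidAlgebra ℤ G) :=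
    ResF.map f (LinearMap.ker q).subtype
  have hψ : Function.Surjective ψ := hq
  have hχ : Function.Injective χ := Subtype.val_injective
  have hex0 : Function.Exact χ ψ := fun y => LinearMap.exact_subtype_ker_map q y
  have hker : LinearMap.ker ψ = LinearMap.range χ := LinearMap.exact_iff.1 hex0
  have hR1 : Module.Finite (MonoidAlgebra ℤ N) (ResF f (LinearMap.ker q)) := ResF.finite f _
  have hR2 : Module.Projective (MonoidAlgebra ℤ N) (ResF f (LinearMap.ker q)) :=
    ResF.projective f hf _
  have hF1 : Module.Finite (MonoidAlgebra ℤ N) (ResF f (Fin k → MonoidAlgebra ℤ G)) :=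
    ResF.finite f _
  have hF2 : Module.Projective (MonoidAlgebra ℤ N) (ResF f (Fin k → MonoidAlgebra ℤ G)) :=
    ResF.projective f hf _
  have eker : ResF f (LinearMap.ker q) ≃ₗ[MonoidAlgebra ℤ N] LinearMap.ker ψ :=
    (LinearEquiv.ofInjective χ hχ).trans (LinearEquiv.ofEq _ _ hker.symm)
  have hk1 : Module.Finite (MonoidAlgebra ℤ N) (LinearMap.ker ψ) := Module.Finite.equiv eker
  have hk2 : Module.Projective (MonoidAlgebra ℤ N) (LinearMap.ker ψ) :=
    Module.Projective.of_equiv eker
  exact ka_fpd (FixM.map π hπ χ) (FixM.map π hπ ψ) (FixM.map_injective _ hχ)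
    (FixM.map_exact _ _ hχ hex0) (fix_surj_projective ψ hψ hk1 hk2)
    (fix_projective π hπ _) (fix_projective π hπ _)

theorem fix_fg [Finite N] [Finite G] (π : N →* Q) (hπ : Function.Surjective π) (f : N →* G)
    (A : Type) [AddCommGroup A] [Module (MonoidAlgebra ℤ G) A]
    (hA : Module.Finite (MonoidAlgebra ℤ G) A) :
    Module.Finite (MonoidAlgebra ℤ Q) (FixM π hπ (ResF f A)) := by
  have h : Module.Finite (MonoidAlgebra ℤ N) (ResF f A) := ResF.finite f A
  exact fix_finite π hπ (ResF f A)

/-- The fixed points of a module of finite projective dimension. -/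
noncomputable def ffix [Finite N] [Finite G] (π : N →* Q) (hπ : Function.Surjective π)
    (f : N →* G) (hf : Function.Injective f) (A : FPMod (MonoidAlgebra ℤ G)) :
    FPMod (MonoidAlgebra ℤ Q) where
  carrier := FixM π hπ (ResF f A.carrier)
  fg := fix_fg π hπ f A.carrier A.fg
  fpd := fix_fpd π hπ f hf A.carrier A.fg A.fpd

end Pool.Agent.Lib.MP_0e6cae_nt.OM5
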