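import Pool.Agent.Lib.MP_0e6cae_nt.OM5.Van
import Pool.Agent.Lib.MP_0e6cae_nt.OM5.KA
import Pool.Agent.Lib.MP_0e6cae_nt.DH.Res

/-!
The classes of the fixed points of modules of finite projective dimension.
-/

open CategoryTheory

namespace Pool.Agent.Lib.MP_0e6cae_nt.OM5

open SW KF DH

variable {N Q G : Type} [Group N] [Group Q] [Group G]

/-- (As `DH.res_projective'`, with `swan` for `m = |G|`; `ResF.free`, `fix_free`.) -/
theorem ffix_projective [Finite N] [Finite Q] [Finite G] (π : N →* Q)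
    (hπ : Function.Surjective π) (f : N →* G) (hf : Function.Injective f) (hV : VanF π hπ f)
    (P : FPMod (MonoidAlgebra ℤ G)) (hP : Module.Projective (MonoidAlgebra ℤ G) P.carrier) :
    ∃ t : ℕ, t * Nat.card N = Module.finrank ℤ P.carrier ∧ K0.mk (ffix π hπ f hf P) =
      t • K0.mk (FPMod.ofProj (MonoidAlgebra ℤ Q) (MonoidAlgebra ℤ Q)) := by
  have hPf : Module.Finite (MonoidAlgebra ℤ G) P.carrier := P.fg
  have hPZ : Module.Finite ℤ P.carrier := Module.Finite.trans (MonoidAlgebra ℤ G) P.carrier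
  obtain ⟨r, φ, n, hr, hφ, hn0, hnc, hφ2⟩ := swan (G := G) P.carrier (Nat.card G) Nat.card_pos.ne'
  obtain ⟨t, ht, ⟨e⟩⟩ := ResF.free f hf r
  refine ⟨t, ht.trans hr, ?_⟩
  have hMZ : Module.Finite ℤ (P.carrier ⧸ LinearMap.range φ) := by
    have h0 : Function.Surjective (LinearMap.range φ).mkQ.toAddMonoidHom.toIntLinearMap :=
      Submodule.mkQ_surjective _
    exact Module.Finite.of_surjective _ h0
  have hkill : ∀ y : P.carrier ⧸ LinearMap.range φ, n • y = 0 := by
    intro y
    obtain ⟨z, rfl⟩ := Submodule.mkQ_surjective _ y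
    rw [← map_nsmul, Submodule.mkQ_apply, Submodule.Quotient.mk_eq_zero]
    obtain ⟨v, hv⟩ := hφ2 z
    exact ⟨v, hv⟩
  have hM : FCop G (P.carrier ⧸ LinearMap.range φ) :=
    finite_of_kill (P.carrier ⧸ LinearMap.range φ) n (Nat.card G) hn0 hnc hkill
  have hMfin := hM.1
  have hNG : Nat.card N ∣ Nat.card G := Subgroup.card_dvd_of_injective f hf
  have hQN : Nat.card Q ∣ Nat.card N := Subgroup.card_dvd_of_surjective π hπ
  -- the fixed points of the quotient
  have hMQ : FCop Q (FixM π hπ (ResF f (P.carrier ⧸ LinearMap.range φ))) := by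
    have h1 : FCop G (FixM π hπ (ResF f (P.carrier ⧸ LinearMap.range φ))) :=
      hM.inj (FixM.valHom π hπ (ResF f (P.carrier ⧸ LinearMap.range φ)))
        fun y z hyz => FixM.ext hyz
    exact ⟨h1.1, Nat.Coprime.coprime_dvd_right (hQN.trans hNG) h1.2⟩
  have hMQfin := hMQ.1
  have h0 := hV (P.carrier ⧸ LinearMap.range φ) hM hMQ
  -- the kernel of the quotient map
  let ψ : ResF f P.carrier →ₗ[MonoidAlgebra ℤ N] ResF f (P.carrier ⧸ LinearMap.range φ) :=
    ResF.map f (LinearMap.range φ).mkQ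
  have hψ : Function.Surjective ψ := Submodule.mkQ_surjective (LinearMap.range φ)
  have h5 : Function.Injective (ResF.map f φ) := hφ
  have h6 : Function.Exact (ResF.map f φ) ψ := fun y => LinearMap.exact_map_mkQ_range φ y
  have hker : LinearMap.ker ψ = LinearMap.range (ResF.map f φ) := LinearMap.exact_iff.1 h6
  have hF1 : Module.Finite (MonoidAlgebra ℤ N) (ResF f (Fin r → MonoidAlgebra ℤ G)) :=
    ResF.finite f _
  have hF2 : Module.Projective (MonoidAlgebra ℤ N) (ResF f (Fin r → MonoidAlgebra ℤ G)) :=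
    ResF.projective f hf _
  have eker : ResF f (Fin r → MonoidAlgebra ℤ G) ≃ₗ[MonoidAlgebra ℤ N] LinearMap.ker ψ :=
    (LinearEquiv.ofInjective (ResF.map f φ) h5).trans (LinearEquiv.ofEq _ _ hker.symm)
  have hk1 : Module.Finite (MonoidAlgebra ℤ N) (LinearMap.ker ψ) := Module.Finite.equiv eker
  have hk2 : Module.Projective (MonoidAlgebra ℤ N) (LinearMap.ker ψ) :=
    Module.Projective.of_equiv eker
  have h7 : Function.Surjective (FixM.map π hπ ψ) := fix_surj_projective ψ hψ hk1 hk2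
  have h8 : Function.Injective (FixM.map π hπ (ResF.map f φ)) := FixM.map_injective _ h5
  have h9 : Function.Exact (FixM.map π hπ (ResF.map f φ)) (FixM.map π hπ ψ) :=
    FixM.map_exact _ _ h5 h6
  let FF : FPMod (MonoidAlgebra ℤ G) := FPMod.ofProj (MonoidAlgebra ℤ G) (Fin r → MonoidAlgebra ℤ G)
  have h1 := mk_exact' (R := MonoidAlgebra ℤ Q)
    (A := FixM π hπ (ResF f (Fin r → MonoidAlgebra ℤ G)))
    (B := FixM π hπ (ResF f P.carrier))
    (D := FixM π hπ (ResF f (P.carrier ⧸ LinearMap.range φ)))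
    (ffix π hπ f hf FF).fg (ffix π hπ f hf FF).fpd
    (ffix π hπ f hf P).fg (ffix π hπ f hf P).fpd Module.Finite.of_finite
    (fpd_of_coprime (FixM π hπ (ResF f (P.carrier ⧸ LinearMap.range φ))) hMQ.2)
    (FixM.map π hπ (ResF.map f φ)) (FixM.map π hπ ψ) h8 h9 h7
  obtain ⟨e1⟩ := fix_equiv π hπ e
  obtain ⟨e2⟩ := fix_free π hπ t
  have h2 := mk_free' t (⟨FixM π hπ (ResF f (Fin r → MonoidAlgebra ℤ G)),
    (ffix π hπ f hf FF).fg, (ffix π hπ f hf FF).fpd⟩ : FPMod (MonoidAlgebra ℤ Q)) (e1.trans e2)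
  have h3 : K0.mk (⟨FixM π hπ (ResF f (P.carrier ⧸ LinearMap.range φ)), Module.Finite.of_finite,
    fpd_of_coprime (FixM π hπ (ResF f (P.carrier ⧸ LinearMap.range φ))) hMQ.2⟩ :
      FPMod (MonoidAlgebra ℤ Q)) = 0 := h0
  rw [h3, add_zero, h2] at h1
  exact h1

/-- (As `DH.res_all'`.) -/
theorem ffix_all [Finite N] [Finite Q] [Finite G] (π : N →* Q)
    (hπ : Function.Surjective π) (f : N →* G) (hf : Function.Injective f) (hV : VanF π hπ f)
    (A : FPMod (MonoidAlgebra ℤ G)) :
    ∃ t : ℤ, t * Nat.card N = Module.finrank ℤ A.carrier ∧ K0.mk (ffix π hπ f hf A) =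
      t • K0.mk (FPMod.ofProj (MonoidAlgebra ℤ Q) (MonoidAlgebra ℤ Q)) := by
  have hAf : Module.Finite (MonoidAlgebra ℤ G) A.carrier := A.fg
  obtain ⟨k, q, hq⟩ := Module.Finite.exists_fin' (MonoidAlgebra ℤ G) A.carrier
  have hFZ : Module.Finite ℤ (Fin k → MonoidAlgebra ℤ G) := Module.Finite.trans (MonoidAlgebra ℤ G) _
  have hL : Module.Finite (MonoidAlgebra ℤ G) (LinearMap.ker q) := by
    have : Module.Finite ℤ (LinearMap.ker q) := by
      have h1 : Module.Finite ℤ (LinearMap.ker q.toAddMonoidHom.toIntLinearMap) := inferInstance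
      exact h1
    exact Module.Finite.of_restrictScalars_finite ℤ _ _
  have hLfpd := fpd_left (LinearMap.ker q).subtype q Subtype.val_injective
    (LinearMap.exact_subtype_ker_map q) hq A.fpd
  obtain ⟨n, hn⟩ := hLfpd
  have hLp : Module.Projective (MonoidAlgebra ℤ G) (LinearMap.ker q) :=
    projective_of_lattice (LinearMap.ker q)
      (fun m y hm hy => by
        have h1 : m • (y : Fin k → MonoidAlgebra ℤ G) = 0 := congrArg Subtype.val hy
        refine Subtype.ext ?_
        funext i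
        have h2 : m • (y : Fin k → MonoidAlgebra ℤ G) i = 0 := congrFun h1 i
        ext a
        let ψ : MonoidAlgebra ℤ G →+ ℤ :=
          { toFun := fun y => y.coeff a
            map_zero' := by simp
            map_add' := fun y z => by simp }
        have h3 : m * ((y : Fin k → MonoidAlgebra ℤ G) i).coeff a = 0 := by
          have h4 := map_zsmul ψ m ((y : Fin k → MonoidAlgebra ℤ G) i)
          rw [h2, map_zero, smul_eq_mul] at h4
          exact h4.symm
        exact (mul_eq_zero.1 h3).resolve_left hm) n hn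
  let FF : FPMod (MonoidAlgebra ℤ G) := FPMod.ofProj (MonoidAlgebra ℤ G) (Fin k → MonoidAlgebra ℤ G)
  let LL : FPMod (MonoidAlgebra ℤ G) := FPMod.ofProj (MonoidAlgebra ℤ G) (LinearMap.ker q)
  obtain ⟨t₁, ht₁, h₁⟩ := ffix_projective π hπ f hf hV FF
    (inferInstanceAs (Module.Projective (MonoidAlgebra ℤ G) (Fin k → MonoidAlgebra ℤ G)))
  obtain ⟨t₂, ht₂, h₂⟩ := ffix_projective π hπ f hf hV LL hLp
  -- exactness on the fixed points
  let ψ : ResF f (Fin k → MonoidAlgebra ℤ G) →ₗ[MonoidAlgebra ℤ N] ResF f A.carrier := ResF.map f q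
  let χ : ResF f (LinearMap.ker q) →ₗ[MonoidAlgebra ℤ N] ResF f (Fin k → MonoidAlgebra ℤ G) :=
    ResF.map f (LinearMap.ker q).subtype
  have hψ : Function.Surjective ψ := hq
  have hχ : Function.Injective χ := Subtype.val_injective
  have hex0 : Function.Exact χ ψ := fun y => LinearMap.exact_subtype_ker_map q y
  have hker : LinearMap.ker ψ = LinearMap.range χ := LinearMap.exact_iff.1 hex0
  have hR1 : Module.Finite (MonoidAlgebra ℤ N) (ResF f (LinearMap.ker q)) := ResF.finite f _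
  have hR2 : Module.Projective (MonoidAlgebra ℤ N) (ResF f (LinearMap.ker q)) :=
    ResF.projective f hf _
  have eker : ResF f (LinearMap.ker q) ≃ₗ[MonoidAlgebra ℤ N] LinearMap.ker ψ :=
    (LinearEquiv.ofInjective χ hχ).trans (LinearEquiv.ofEq _ _ hker.symm)
  have hk1 : Module.Finite (MonoidAlgebra ℤ N) (LinearMap.ker ψ) := Module.Finite.equiv eker
  have hk2 : Module.Projective (MonoidAlgebra ℤ N) (LinearMap.ker ψ) :=
    Module.Projective.of_equiv eker
  have hex : K0.mk (ffix π hπ f hf FF) = K0.mk (ffix π hπ f hf LL) + K0.mk (ffix π hπ f hf A) :=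
    K0.mk_exact (M' := ffix π hπ f hf LL) (M := ffix π hπ f hf FF) (M'' := ffix π hπ f hf A)
      (FixM.map π hπ χ) (FixM.map π hπ ψ) (FixM.map_injective _ hχ)
      (FixM.map_exact _ _ hχ hex0) (fix_surj_projective ψ hψ hk1 hk2)
  have hrk := finrank_exact (LinearMap.ker q).subtype.toAddMonoidHom q.toAddMonoidHom
    Subtype.val_injective (LinearMap.exact_subtype_ker_map q) hq
  have ht₁' : t₁ * Nat.card N = Module.finrank ℤ (Fin k → MonoidAlgebra ℤ G) := ht₁
  have ht₂' : t₂ * Nat.card N = Module.finrank ℤ (LinearMap.ker q) := ht₂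
  refine ⟨(t₁ : ℤ) - t₂, ?_, ?_⟩
  · have h3 : (t₁ * Nat.card N : ℕ) = t₂ * Nat.card N + Module.finrank ℤ A.carrier := by
      rw [ht₁', ht₂', hrk]
    have h4 : ((t₁ : ℤ) * Nat.card N) = t₂ * Nat.card N + Module.finrank ℤ A.carrier := by
      exact_mod_cast h3
    rw [sub_mul]
    linarith
  · rw [h₁, h₂] at hex
    rw [sub_smul, natCast_zsmul, natCast_zsmul, hex, add_sub_cancel_left]

theorem ffix_eq [Finite N] [Finite Q] [Finite G] (π : N →* Q) (hπ : Function.Surjective π)
    (f : N →* G) (hf : Function.Injective f) (hV : VanF π hπ f) (A B : FPMod (MonoidAlgebra ℤ G))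
    (hAB : Module.finrank ℤ A.carrier = Module.finrank ℤ B.carrier) :
    K0.mk (ffix π hπ f hf A) = K0.mk (ffix π hπ f hf B) := by
  obtain ⟨t, ht, h1⟩ := ffix_all π hπ f hf hV A
  obtain ⟨t', ht', h2⟩ := ffix_all π hπ f hf hV B
  have h3 : t = t' := by
    have hpos : (0 : ℤ) < Nat.card N := by exact_mod_cast Nat.card_pos
    have h4 : t * Nat.card N = t' * Nat.card N := by rw [ht, ht', hAB]
    exact mul_right_cancel₀ hpos.ne' h4
  rw [h3] at h1
  exact h1.trans h2.symm

end Pool.Agent.Lib.MP_0e6cae_nt.OM5
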