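import Pool.Agent.Lib.MP_0e6cae_nt.OM5.RatC
import Pool.Agent.Lib.MP_0e6cae_nt.OM5.K
import Pool.Agent.Lib.MP_0e6cae_nt.KF.Fin

/-!
The main theorem for cyclic and dihedral subquotients.
-/

open CategoryTheory NumberField IsDedekindDomain

namespace Pool.Agent.Lib.MP_0e6cae_nt.OM5

open St KF SW

/-- **Main theorem.** -/
theorem main_sec (F : Type) [Field F] [NumberField F] (Γ N H : Subgroup (FAut F)) (hN : N ≤ Γ)
    (hH : H ≤ N) [(H.subgroupOf N).Normal] (x : FAut F) (hx : x ∈ N)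
    (hNx : (∀ y ∈ N, ∃ i : ℤ, x ^ i * y ∈ H) ∨
      ∃ s ∈ N, s * s ∈ H ∧ s * x * s⁻¹ * x ∈ H ∧
        ∀ y ∈ N, ∃ i : ℤ, x ^ i * y ∈ H ∨ x ^ i * s * y ∈ H)
    (hΓ : (∀ a : ℕ, a.Coprime (Nat.card N) → ∀ (i : ℕ) (g : FAut F),
        Nat.card {h : H // ∃ γ ∈ Γ, γ * (x ^ i * h) * γ⁻¹ = g} =
          Nat.card {h : H // ∃ γ ∈ Γ, γ * (x ^ (i * a) * h) * γ⁻¹ = g}) ∨
      (∀ y ∈ N, ∀ a : ℕ, a.Coprime (orderOf y) → ∃ γ ∈ Γ, γ * y * γ⁻¹ = y ^ a) ∨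
      ∃ m : ℕ, Nonempty (Γ ≃* Equiv.Perm (Fin m)))
    (S : Set (FinPl F)) (hSfin : S.Finite) (E : St.TwoExt Γ S)
    (hA : Module.Finite (ZG Γ) E.A) (hA' : FPD (ZG Γ) E.A)
    (hB : Module.Finite (ZG Γ) E.B) (hB' : FPD (ZG Γ) E.B) :
    ∃ (h₁ : Module.Finite (ZQ N H) (Fix hN H E.A)) (h₂ : FPD (ZQ N H) (Fix hN H E.A))
      (h₃ : Module.Finite (ZQ N H) (Fix hN H E.B)) (h₄ : FPD (ZQ N H) (Fix hN H E.B)),
      K0.mk (⟨Fix hN H E.A, h₁, h₂⟩ : FPMod (ZQ N H)) = K0.mk ⟨Fix hN H E.B, h₃, h₄⟩ := by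
  have hfin : Finite (FAut F) := finite_faut F
  have hAB := finrank_eq hSfin E hA hB
  have hf : Function.Injective (Subgroup.inclusion hN) := Subgroup.inclusion_injective hN
  have hΓ' : RatH Γ H x (Nat.card N) ∨ ∃ m : ℕ, Nonempty (Γ ≃* Equiv.Perm (Fin m)) := by
    rcases hΓ with h | h | h
    · exact Or.inl h
    · exact Or.inl (ratH_of_conj Γ N H hH x hx h)
    · exact Or.inr h
  have hV := vanF_quo Γ N H hN hH x hx hNx hΓ'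
  have key := ffix_eq (quo N H) (quo_surjective N H) (Subgroup.inclusion hN) hf hV
    { carrier := E.toLib.A, grp := E.toLib.grpA, mod := E.toLib.modA, fg := hA, fpd := hA' }
    { carrier := E.toLib.B, grp := E.toLib.grpB, mod := E.toLib.modB, fg := hB, fpd := hB' } hAB
  exact ⟨_, _, _, _, key⟩

end Pool.Agent.Lib.MP_0e6cae_nt.OM5
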