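import Pool.Agent.Lib.MP_0e6cae_nt.SW.Proj

/-!
The fixed points of the kernel of a surjective homomorphism `π : N → Q` in a `ℤ[N]`-module, as a
`ℤ[Q]`-module.
-/

open CategoryTheory

namespace Pool.Agent.Lib.MP_0e6cae_nt.OM5

open SW

variable {N Q : Type} [Group N] [Group Q]

/-- The elements of `M` fixed by the kernel of `π`. -/
def fixS (π : N →* Q) (M : Type) [AddCommGroup M] [Module (MonoidAlgebra ℤ N) M] :
    AddSubgroup M where
  carrier := {y | ∀ h : N, π h = 1 →
    (MonoidAlgebra.single h (1 : ℤ) : MonoidAlgebra ℤ N) • y = y}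
  zero_mem' := fun _ _ => smul_zero _
  add_mem' := fun {a b} ha hb h hh => by rw [smul_add, ha h hh, hb h hh]
  neg_mem' := fun {a} ha h hh => by rw [smul_neg, ha h hh]

/-- The elements of `M` fixed by the kernel of `π`. -/
def FixM (π : N →* Q) (_ : Function.Surjective π) (M : Type) [AddCommGroup M]
    [Module (MonoidAlgebra ℤ N) M] : Type := fixS π M

variable (π : N →* Q) (hπ : Function.Surjective π) (M : Type) [AddCommGroup M]
  [Module (MonoidAlgebra ℤ N) M]

instance FixM.grp : AddCommGroup (FixM π hπ M) := (inferInstance : AddCommGroup (fixS π M))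

variable {M} in
/-- An element of the fixed points as an element of the module. -/
def FixM.val {π : N →* Q} {hπ : Function.Surjective π} (y : FixM π hπ M) : M := Subtype.val y

variable {π hπ M}

theorem FixM.ext {y z : FixM π hπ M} (h : y.val = z.val) : y = z := Subtype.ext h

theorem FixM.prop (y : FixM π hπ M) (h : N) (hh : π h = 1) :
    (MonoidAlgebra.single h (1 : ℤ) : MonoidAlgebra ℤ N) • y.val = y.val := y.2 h hh

theorem FixM.val_add (y z : FixM π hπ M) : (y + z).val = y.val + z.val := rfl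

theorem FixM.val_zero : (0 : FixM π hπ M).val = 0 := rfl

/-- The inclusion of the fixed points. -/
def FixM.valHom (π : N →* Q) (hπ : Function.Surjective π) (M : Type) [AddCommGroup M]
    [Module (MonoidAlgebra ℤ N) M] : FixM π hπ M →+ M where
  toFun y := y.val
  map_zero' := rfl
  map_add' _ _ := rfl

theorem FixM.val_zsmul (c : ℤ) (y : FixM π hπ M) : (c • y).val = c • y.val :=
  map_zsmul (FixM.valHom π hπ M) c y

theorem FixM.val_nsmul (c : ℕ) (y : FixM π hπ M) : (c • y).val = c • y.val :=
  map_nsmul (FixM.valHom π hπ M) c y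

/-- A fixed element. -/
def FixM.mk (y : M) (hy : ∀ h : N, π h = 1 →
    (MonoidAlgebra.single h (1 : ℤ) : MonoidAlgebra ℤ N) • y = y) : FixM π hπ M := ⟨y, hy⟩

theorem FixM.val_mk (y : M) (hy : ∀ h : N, π h = 1 →
    (MonoidAlgebra.single h (1 : ℤ) : MonoidAlgebra ℤ N) • y = y) :
    (FixM.mk (hπ := hπ) y hy).val = y := rfl

theorem single_smul_smul (g h : N) (y : M) :
    (MonoidAlgebra.single g (1 : ℤ) : MonoidAlgebra ℤ N) •
      (MonoidAlgebra.single h (1 : ℤ) : MonoidAlgebra ℤ N) • y =
      (MonoidAlgebra.single (g * h) (1 : ℤ) : MonoidAlgebra ℤ N) • y := by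
  rw [← mul_smul, MonoidAlgebra.single_mul_single, one_mul]

theorem single_one_smul (y : M) :
    (MonoidAlgebra.single (1 : N) (1 : ℤ) : MonoidAlgebra ℤ N) • y = y := by
  rw [← MonoidAlgebra.one_def, one_smul]

/-- The elements of `N` act on the fixed points. -/
theorem FixM.smul_mem (n : N) (y : FixM π hπ M) (h : N) (hh : π h = 1) :
    (MonoidAlgebra.single h (1 : ℤ) : MonoidAlgebra ℤ N) •
      (MonoidAlgebra.single n (1 : ℤ) : MonoidAlgebra ℤ N) • y.val =
      (MonoidAlgebra.single n (1 : ℤ) : MonoidAlgebra ℤ N) • y.val := by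
  rw [single_smul_smul]
  have h1 : h * n = n * (n⁻¹ * h * n) := by group
  rw [h1, ← single_smul_smul, y.prop]
  rw [map_mul, map_mul, hh, mul_one, ← map_mul, inv_mul_cancel, map_one]

/-- The value depends only on the image in `Q`. -/
theorem FixM.smul_eq (n n' : N) (hn : π n = π n') (y : FixM π hπ M) :
    (MonoidAlgebra.single n (1 : ℤ) : MonoidAlgebra ℤ N) • y.val =
      (MonoidAlgebra.single n' (1 : ℤ) : MonoidAlgebra ℤ N) • y.val := by
  have h1 : n = n' * (n'⁻¹ * n) := by group
  rw [h1, ← single_smul_smul, y.prop]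
  rw [map_mul, hn, ← map_mul, inv_mul_cancel, map_one]

/-- The action of `Q` on the fixed points. -/
noncomputable def FixM.rho (π : N →* Q) (hπ : Function.Surjective π) (M : Type) [AddCommGroup M]
    [Module (MonoidAlgebra ℤ N) M] : Q →* Module.End ℤ (FixM π hπ M) where
  toFun q :=
    { toFun := fun y => FixM.mk ((MonoidAlgebra.single (Function.surjInv hπ q) (1 : ℤ) :
        MonoidAlgebra ℤ N) • y.val) (y.smul_mem _)
      map_add' := fun y z => FixM.ext (by
        rw [FixM.val_mk, FixM.val_add, smul_add, FixM.val_add, FixM.val_mk, FixM.val_mk])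
      map_smul' := fun c y => FixM.ext (by
        rw [FixM.val_mk, FixM.val_zsmul, smul_comm, eq_intCast, Int.cast_id, FixM.val_zsmul,
          FixM.val_mk]) }
  map_one' := by
    refine LinearMap.ext fun y => FixM.ext ?_
    change (MonoidAlgebra.single (Function.surjInv hπ 1) (1 : ℤ) : MonoidAlgebra ℤ N) • y.val =
      y.val
    exact y.prop _ (Function.surjInv_eq hπ 1)
  map_mul' q r := by
    refine LinearMap.ext fun y => FixM.ext ?_
    change (MonoidAlgebra.single (Function.surjInv hπ (q * r)) (1 : ℤ) : MonoidAlgebra ℤ N) •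
      y.val = (MonoidAlgebra.single (Function.surjInv hπ q) (1 : ℤ) : MonoidAlgebra ℤ N) •
      ((MonoidAlgebra.single (Function.surjInv hπ r) (1 : ℤ) : MonoidAlgebra ℤ N) • y.val)
    rw [single_smul_smul]
    refine FixM.smul_eq _ _ ?_ y
    rw [map_mul, Function.surjInv_eq hπ, Function.surjInv_eq hπ, Function.surjInv_eq hπ]

noncomputable instance FixM.mod : Module (MonoidAlgebra ℤ Q) (FixM π hπ M) :=
  Module.compHom (FixM π hπ M)
    (MonoidAlgebra.lift ℤ (Module.End ℤ (FixM π hπ M)) Q (FixM.rho π hπ M)).toRingHom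

theorem FixM.smul_def (r : MonoidAlgebra ℤ Q) (y : FixM π hπ M) : r • y =
    MonoidAlgebra.lift ℤ (Module.End ℤ (FixM π hπ M)) Q (FixM.rho π hπ M) r y := rfl

theorem FixM.single_smul (n : N) (c : ℤ) (y : FixM π hπ M) :
    ((MonoidAlgebra.single (π n) c : MonoidAlgebra ℤ Q) • y).val =
      (MonoidAlgebra.single n c : MonoidAlgebra ℤ N) • y.val := by
  rw [FixM.smul_def, MonoidAlgebra.lift_single, LinearMap.smul_apply, FixM.val_zsmul]
  change c • (MonoidAlgebra.single (Function.surjInv hπ (π n)) (1 : ℤ) : MonoidAlgebra ℤ N) •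
    y.val = _
  rw [FixM.smul_eq (Function.surjInv hπ (π n)) n (Function.surjInv_eq hπ _) y]
  have h1 : (MonoidAlgebra.single n c : MonoidAlgebra ℤ N) =
      c • MonoidAlgebra.single n (1 : ℤ) := by
    rw [MonoidAlgebra.smul_single, smul_eq_mul, mul_one]
  rw [h1, smul_assoc]

theorem FixM.smul_val (r : MonoidAlgebra ℤ N) (y : FixM π hπ M) :
    ((MonoidAlgebra.mapDomainRingHom ℤ π r) • y).val = r • y.val := by
  induction r using MonoidAlgebra.induction_linear with
  | zero => rw [map_zero, zero_smul, zero_smul, FixM.val_zero]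
  | add a b ha hb => rw [map_add, add_smul, add_smul, FixM.val_add, ha, hb]
  | single n c =>
    rw [← FixM.single_smul]
    congr 2
    simp

/-- Additive maps compatible with the elements of the group are linear. -/
theorem lin_of_single {M M' : Type} [AddCommGroup M] [Module (MonoidAlgebra ℤ Q) M]
    [AddCommGroup M'] [Module (MonoidAlgebra ℤ Q) M'] (φ : M →+ M')
    (h : ∀ (q : Q) (y : M), φ ((MonoidAlgebra.single q (1 : ℤ) : MonoidAlgebra ℤ Q) • y) =
      (MonoidAlgebra.single q (1 : ℤ) : MonoidAlgebra ℤ Q) • φ y)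
    (r : MonoidAlgebra ℤ Q) (y : M) : φ (r • y) = r • φ y := by
  induction r using MonoidAlgebra.induction_linear with
  | zero => rw [zero_smul, zero_smul, map_zero]
  | add a b ha hb => rw [add_smul, add_smul, map_add, ha, hb]
  | single q c =>
    have h1 : (MonoidAlgebra.single q c : MonoidAlgebra ℤ Q) =
        c • MonoidAlgebra.single q (1 : ℤ) := by
      rw [MonoidAlgebra.smul_single, smul_eq_mul, mul_one]
    rw [h1, smul_assoc, smul_assoc, map_zsmul, h]

/-- The map on the fixed points. -/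
noncomputable def FixM.map (π : N →* Q) (hπ : Function.Surjective π) {M M' : Type}
    [AddCommGroup M] [Module (MonoidAlgebra ℤ N) M] [AddCommGroup M']
    [Module (MonoidAlgebra ℤ N) M'] (φ : M →ₗ[MonoidAlgebra ℤ N] M') :
    FixM π hπ M →ₗ[MonoidAlgebra ℤ Q] FixM π hπ M' where
  toFun y := FixM.mk (φ y.val) fun h hh => by rw [← map_smul, y.prop h hh]
  map_add' y z := FixM.ext (by
    rw [FixM.val_mk, FixM.val_add, map_add, FixM.val_add, FixM.val_mk, FixM.val_mk])
  map_smul' r y := by
    obtain ⟨r, rfl⟩ : ∃ r', MonoidAlgebra.mapDomainRingHom ℤ π r' = r := by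
      induction r using MonoidAlgebra.induction_linear with
      | zero => exact ⟨0, map_zero _⟩
      | add a b ha hb =>
        obtain ⟨a', rfl⟩ := ha
        obtain ⟨b', rfl⟩ := hb
        exact ⟨a' + b', map_add _ _ _⟩
      | single q c =>
        obtain ⟨n, rfl⟩ := hπ q
        exact ⟨MonoidAlgebra.single n c, by simp⟩
    refine FixM.ext ?_
    change φ ((MonoidAlgebra.mapDomainRingHom ℤ π r) • y).val = _
    rw [RingHom.id_apply, FixM.smul_val, FixM.smul_val, map_smul, FixM.val_mk]

theorem FixM.map_val {M M' : Type} [AddCommGroup M] [Module (MonoidAlgebra ℤ N) M]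
    [AddCommGroup M'] [Module (MonoidAlgebra ℤ N) M'] (φ : M →ₗ[MonoidAlgebra ℤ N] M')
    (y : FixM π hπ M) : (FixM.map π hπ φ y).val = φ y.val := rfl

theorem FixM.map_injective {M M' : Type} [AddCommGroup M] [Module (MonoidAlgebra ℤ N) M]
    [AddCommGroup M'] [Module (MonoidAlgebra ℤ N) M'] (φ : M →ₗ[MonoidAlgebra ℤ N] M')
    (h : Function.Injective φ) : Function.Injective (FixM.map π hπ φ) := fun _ _ hyz =>
  FixM.ext (h (congrArg FixM.val hyz))

theorem FixM.map_exact {M M' M'' : Type} [AddCommGroup M] [Module (MonoidAlgebra ℤ N) M]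
    [AddCommGroup M'] [Module (MonoidAlgebra ℤ N) M'] [AddCommGroup M'']
    [Module (MonoidAlgebra ℤ N) M''] (φ : M →ₗ[MonoidAlgebra ℤ N] M')
    (ψ : M' →ₗ[MonoidAlgebra ℤ N] M'') (h : Function.Injective φ) (hex : Function.Exact φ ψ) :
    Function.Exact (FixM.map π hπ φ) (FixM.map π hπ ψ) := by
  intro y
  constructor
  · intro hy
    obtain ⟨z, hz⟩ := (hex y.val).1 (congrArg FixM.val hy)
    refine ⟨FixM.mk z fun g hg => h ?_, FixM.ext hz⟩
    rw [map_smul, hz, y.prop g hg]
  · rintro ⟨z, rfl⟩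
    exact FixM.ext ((hex _).2 ⟨z.val, rfl⟩)

end Pool.Agent.Lib.MP_0e6cae_nt.OM5
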