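import Pool.Agent.Lib.MP_0e6cae_nt.SW.Gen

/-!
Finite semisimple modules with the same numbers of homomorphisms to the simple modules.
-/

namespace Pool.Agent.Lib.MP_0e6cae_nt.OM5

open SW

/-- (The proof of `SW.exists_gen_semisimple` with `V'` in the place of `A^r`.) -/
theorem exists_surj_semisimple {A : Type} [Ring A] (V V' : Type) [AddCommGroup V] [Module A V]
    [Finite V] [IsSemisimpleModule A V] [AddCommGroup V'] [Module A V'] [Finite V']
    (h : ∀ (S : Submodule A V), IsSimpleModule A S →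
      Nat.card (V →ₗ[A] S) ≤ Nat.card (V' →ₗ[A] S)) :
    ∃ φ : V' →ₗ[A] V, Function.Surjective φ := by
  classical
  have hN : IsNoetherian A V := inferInstance
  obtain ⟨W, ⟨φ, hφ⟩, hmax⟩ := set_has_maximal_iff_noetherian.2 hN
    {W : Submodule A V | ∃ φ : V' →ₗ[A] V, LinearMap.range φ = W} ⟨_, 0, rfl⟩
  refine ⟨φ, ?_⟩
  rw [← LinearMap.range_eq_top, hφ]
  by_contra hW
  obtain ⟨W', hc⟩ := exists_isCompl W
  have hW' : W' ≠ ⊥ := by
    intro h0
    rw [h0] at hc
    exact hW (by simpa using hc.sup_eq_top)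
  obtain ⟨S, hS, hSW⟩ := (IsAtomic.eq_bot_or_exists_atom_le W').resolve_left hW'
  have hSs : IsSimpleModule A S := isSimpleModule_iff_isAtom.2 hS
  have hSne : S ≠ ⊥ := hS.1
  -- every homomorphism vanishes on the kernel
  have hker : ∀ ψ : V' →ₗ[A] S, LinearMap.ker φ ≤ LinearMap.ker ψ := by
    intro ψ x hx
    rw [LinearMap.mem_ker]
    by_contra hne
    have hx0 : φ x = 0 := hx
    set ψ' : V' →ₗ[A] V := S.subtype ∘ₗ ψ with hψ'
    -- the image of the kernel is S
    have hmap : (LinearMap.ker φ).map ψ' = S := by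
      have h1 : (LinearMap.ker φ).map ψ' ≤ S := by
        rintro _ ⟨y, -, rfl⟩
        exact (ψ y).2
      rcases (hS.le_iff.1 h1) with h2 | h2
      · exfalso
        apply hne
        have h3 : ψ' x ∈ (LinearMap.ker φ).map ψ' := Submodule.mem_map_of_mem hx
        rw [h2, Submodule.mem_bot] at h3
        exact Subtype.ext h3
      · exact h2
    have hS1 : S ≤ LinearMap.range (φ + ψ') := by
      rw [← hmap]
      rintro _ ⟨y, hy, rfl⟩
      refine ⟨y, ?_⟩
      have hy0 : φ y = 0 := hy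
      rw [LinearMap.add_apply, hy0, zero_add]
    have hW1 : W ≤ LinearMap.range (φ + ψ') := by
      rw [← hφ]
      rintro _ ⟨y, rfl⟩
      have h1 : (φ + ψ') y ∈ LinearMap.range (φ + ψ') := ⟨y, rfl⟩
      have h2 : ψ' y ∈ LinearMap.range (φ + ψ') := hS1 (ψ y).2
      have h3 := Submodule.sub_mem _ h1 h2
      rwa [LinearMap.add_apply, add_sub_cancel_right] at h3
    refine hmax (LinearMap.range (φ + ψ')) ⟨_, rfl⟩ (lt_of_le_of_ne hW1 ?_)
    intro heq
    apply hSne
    rw [← heq] at hS1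
    have h1 : S ≤ W ⊓ W' := le_inf hS1 hSW
    rw [hc.inf_eq_bot] at h1
    exact le_bot_iff.1 h1
  -- the two projections
  obtain ⟨S', hcS⟩ := exists_isCompl S
  let πS : V →ₗ[A] S := S.projectionOnto S' hcS
  let e := φ.quotKerEquivRange
  let πW : V →ₗ[A] W := W.projectionOnto W' hc
  let ι : W →ₗ[A] LinearMap.range φ := Submodule.inclusion hφ.ge
  let G : (V' →ₗ[A] S) → (V →ₗ[A] S) := fun ψ =>
    ((LinearMap.ker φ).liftQ ψ (hker ψ)) ∘ₗ e.symm.toLinearMap ∘ₗ ι ∘ₗ πW
  have hG1 : ∀ ψ x, G ψ (φ x) = ψ x := by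
    intro ψ x
    have hxW : φ x ∈ W := hφ ▸ ⟨x, rfl⟩
    have h1 : πW (φ x) = ⟨φ x, hxW⟩ := Submodule.projectionOnto_apply_of_mem_left hc hxW
    show (LinearMap.ker φ).liftQ ψ (hker ψ) (e.symm (ι (πW (φ x)))) = ψ x
    rw [h1]
    have h2 : e.symm (ι ⟨φ x, hxW⟩) = (LinearMap.ker φ).mkQ x := by
      rw [LinearEquiv.symm_apply_eq]
      apply Subtype.ext
      rfl
    rw [h2, Submodule.mkQ_apply, Submodule.liftQ_apply]
  have hG2 : ∀ ψ, ∀ x ∈ W', G ψ x = 0 := by
    intro ψ x hx
    have h1 : πW x = 0 := Submodule.projectionOnto_apply_of_mem_right hc hx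
    show (LinearMap.ker φ).liftQ ψ (hker ψ) (e.symm (ι (πW x))) = 0
    rw [h1, map_zero, map_zero, map_zero]
  obtain ⟨s0, hs0, hs1⟩ := (Submodule.ne_bot_iff S).1 hSne
  have hπ : πS s0 ≠ 0 := by
    have h1 : πS s0 = ⟨s0, hs0⟩ := Submodule.projectionOnto_apply_of_mem_left hcS hs0
    rw [h1]
    intro h0
    exact hs1 (congrArg Subtype.val h0)
  let H : Option (V' →ₗ[A] S) → (V →ₗ[A] S) := fun o => o.elim πS G
  have hH : Function.Injective H := by
    intro a b hab
    cases a with
    | none =>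
      cases b with
      | none => rfl
      | some ψ =>
        exfalso
        apply hπ
        have h1 : πS = G ψ := hab
        rw [h1]
        exact hG2 ψ s0 (hSW hs0)
    | some ψ =>
      cases b with
      | none =>
        exfalso
        apply hπ
        have h1 : G ψ = πS := hab
        rw [← h1]
        exact hG2 ψ s0 (hSW hs0)
      | some ψ' =>
        have h1 : G ψ = G ψ' := hab
        congr 1
        apply LinearMap.ext
        intro x
        rw [← hG1 ψ x, ← hG1 ψ' x, h1]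
  have hf1 : Finite (V' →ₗ[A] S) := gen_finite_hom V' S
  have hf2 : Finite (V →ₗ[A] S) := gen_finite_hom V S
  have h1 := Nat.card_le_card_of_injective H hH
  rw [Finite.card_option] at h1
  have h2 := h S hSs
  omega

theorem iso_of_card {A : Type} [Ring A] (V V' : Type) [AddCommGroup V] [Module A V]
    [Finite V] [IsSemisimpleModule A V] [AddCommGroup V'] [Module A V'] [Finite V']
    [IsSemisimpleModule A V']
    (h : ∀ (S : Type) [AddCommGroup S] [Module A S] [Finite S], IsSimpleModule A S →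
      Nat.card (V →ₗ[A] S) = Nat.card (V' →ₗ[A] S)) : Nonempty (V ≃ₗ[A] V') := by
  obtain ⟨φ, hφ⟩ := exists_surj_semisimple V V' fun S hS => (h S hS).le
  obtain ⟨ψ, hψ⟩ := exists_surj_semisimple V' V fun S hS => (h S hS).ge
  have h1 : Nat.card V ≤ Nat.card V' := Nat.card_le_card_of_surjective φ hφ
  have h2 : Nat.card V' ≤ Nat.card V := Nat.card_le_card_of_surjective ψ hψ
  have h3 : Nat.card V' = Nat.card V := le_antisymm h2 h1
  have h4 : Function.Bijective φ := by
    have hV := Fintype.ofFinite V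
    have hV' := Fintype.ofFinite V'
    rw [Fintype.bijective_iff_surjective_and_card]
    refine ⟨hφ, ?_⟩
    rw [← Nat.card_eq_fintype_card, ← Nat.card_eq_fintype_card, h3]
  exact ⟨(LinearEquiv.ofBijective φ h4).symm⟩

end Pool.Agent.Lib.MP_0e6cae_nt.OM5
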