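import Pool.Agent.Lib.MP_0e6cae_nt.St
import Pool.Agent.Lib.MP_0e6cae_nt.OM5.Fix

/-!
The statement layer for the fixed points: the `ℤ[N/H]`-module `M^H`.
-/

open CategoryTheory NumberField IsDedekindDomain

namespace Pool.Agent.Lib.MP_0e6cae_nt.St

variable {G₀ : Type} [Group G₀]

/-- The homomorphism `N → N/H`. -/
def quo (N H : Subgroup G₀) [(H.subgroupOf N).Normal] : N →* (N ⧸ H.subgroupOf N) :=
  QuotientGroup.mk' (H.subgroupOf N)

theorem quo_surjective (N H : Subgroup G₀) [(H.subgroupOf N).Normal] :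
    Function.Surjective (quo N H) := QuotientGroup.mk'_surjective (H.subgroupOf N)

/-- The group ring `ℤ[N/H]`. -/
def ZQ (N H : Subgroup G₀) [(H.subgroupOf N).Normal] : Type :=
  MonoidAlgebra ℤ (N ⧸ H.subgroupOf N)

noncomputable instance ZQ.ring (N H : Subgroup G₀) [(H.subgroupOf N).Normal] : Ring (ZQ N H) :=
  (inferInstance : Ring (MonoidAlgebra ℤ (N ⧸ H.subgroupOf N)))

/-- The `ℤ[N/H]`-module `M^H` of the elements of the `ℤ[Γ]`-module `M` which are fixed by `H`,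
for `H ≤ N ≤ Γ`. -/
noncomputable def Fix {Γ N : Subgroup G₀} (hN : N ≤ Γ) (H : Subgroup G₀) [(H.subgroupOf N).Normal] (M : Type)
    [AddCommGroup M] [Module (ZG Γ) M] : Type :=
  @OM5.FixM N (N ⧸ H.subgroupOf N) _ _ (quo N H) (quo_surjective N H) (Res hN M) (Res.grp hN M)
    (Res.mod hN M)

noncomputable instance Fix.grp {Γ N : Subgroup G₀} (hN : N ≤ Γ) (H : Subgroup G₀) [(H.subgroupOf N).Normal]
    (M : Type) [AddCommGroup M] [Module (ZG Γ) M] : AddCommGroup (Fix hN H M) :=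
  @OM5.FixM.grp N (N ⧸ H.subgroupOf N) _ _ (quo N H) (quo_surjective N H) (Res hN M)
    (Res.grp hN M) (Res.mod hN M)

noncomputable instance Fix.mod {Γ N : Subgroup G₀} (hN : N ≤ Γ) (H : Subgroup G₀)
    [(H.subgroupOf N).Normal] (M : Type) [AddCommGroup M] [Module (ZG Γ) M] :
    Module (ZQ N H) (Fix hN H M) :=
  @OM5.FixM.mod N (N ⧸ H.subgroupOf N) _ _ (quo N H) (quo_surjective N H) (Res hN M)
    (Res.grp hN M) (Res.mod hN M)

end Pool.Agent.Lib.MP_0e6cae_nt.St
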