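import Pool.Agent.Lib.MP_0e6cae_nt.OM5.WpA

/-!
Surjectivity on the fixed points.
-/

open CategoryTheory

namespace Pool.Agent.Lib.MP_0e6cae_nt.OM5

open SW

variable {N Q : Type} [Group N] [Group Q] {π : N →* Q} {hπ : Function.Surjective π}

theorem wp_equiv {H : Type} [Group H] [Fintype H] {L L' : Type} [AddCommGroup L]
    [Module (MonoidAlgebra ℤ H) L] [AddCommGroup L'] [Module (MonoidAlgebra ℤ H) L']
    (e : L ≃ₗ[MonoidAlgebra ℤ H] L') (h : WP H L) : WP H L' := by
  obtain ⟨θ, hθ⟩ := h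
  refine ⟨(e.toLinearMap.toAddMonoidHom.comp θ).comp e.symm.toLinearMap.toAddMonoidHom,
    fun y => ?_⟩
  have h1 : ∀ h : H, (MonoidAlgebra.single h (1 : ℤ) : MonoidAlgebra ℤ H) •
      ((e.toLinearMap.toAddMonoidHom.comp θ).comp e.symm.toLinearMap.toAddMonoidHom)
        ((MonoidAlgebra.single h⁻¹ (1 : ℤ) : MonoidAlgebra ℤ H) • y) =
      e ((MonoidAlgebra.single h (1 : ℤ) : MonoidAlgebra ℤ H) •
        θ ((MonoidAlgebra.single h⁻¹ (1 : ℤ) : MonoidAlgebra ℤ H) • e.symm y)) := by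
    intro h
    have h2 : e.symm ((MonoidAlgebra.single h⁻¹ (1 : ℤ) : MonoidAlgebra ℤ H) • y) =
        (MonoidAlgebra.single h⁻¹ (1 : ℤ) : MonoidAlgebra ℤ H) • e.symm y := map_smul e.symm _ _
    rw [LinearEquiv.map_smul, ← h2]
    rfl
  rw [Finset.sum_congr rfl fun h _ => h1 h, ← map_sum, hθ, LinearEquiv.apply_symm_apply]

/-- The kernel of the restriction of a linear map. -/
noncomputable def wpKer {K N : Type} [Group K] [Group N] (ι : K →* N) {F A : Type}
    [AddCommGroup F] [Module (MonoidAlgebra ℤ N) F] [AddCommGroup A]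
    [Module (MonoidAlgebra ℤ N) A] (ψ : F →ₗ[MonoidAlgebra ℤ N] A) :
    ResF ι (LinearMap.ker ψ) ≃ₗ[MonoidAlgebra ℤ K] LinearMap.ker (ResF.map ι ψ) where
  toFun := fun y => ⟨ResF.of ι F ((ResF.of ι (LinearMap.ker ψ)).symm y).1,
    ((ResF.of ι (LinearMap.ker ψ)).symm y).2⟩
  invFun := fun y => ResF.of ι (LinearMap.ker ψ) ⟨(ResF.of ι F).symm y.1, y.2⟩
  map_add' := fun _ _ => rfl
  map_smul' := fun _ _ => rfl
  left_inv := fun _ => rfl
  right_inv := fun _ => rfl

theorem wp_surj [Finite N] {F A : Type} [AddCommGroup F]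
    [Module (MonoidAlgebra ℤ N) F] [AddCommGroup A] [Module (MonoidAlgebra ℤ N) A]
    (ψ : F →ₗ[MonoidAlgebra ℤ N] A) (hψ : Function.Surjective ψ) [Fintype π.ker]
    (hL : WP π.ker (ResF π.ker.subtype (LinearMap.ker ψ))) :
    Function.Surjective (FixM.map π hπ ψ) := by
  intro y
  obtain ⟨f, hf, hf'⟩ := exists_fixed π.ker (ResF.map π.ker.subtype ψ) hψ
    (wp_equiv (wpKer π.ker.subtype ψ) hL) (ResF.of π.ker.subtype A y.val) (fun h => by
      rw [ResF.single_smul]
      congr 1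
      exact y.prop h.1 h.2)
  refine ⟨FixM.mk ((ResF.of π.ker.subtype F).symm f) fun h hh => ?_, FixM.ext hf'⟩
  have h1 := hf ⟨h, hh⟩
  have h2 := ResF.single_smul π.ker.subtype F (⟨h, hh⟩ : π.ker) 1
    ((ResF.of π.ker.subtype F).symm f)
  rw [AddEquiv.apply_symm_apply, h1] at h2
  exact (ResF.of π.ker.subtype F).injective (by rw [AddEquiv.apply_symm_apply]; exact h2.symm)

/-- (Restrict to the kernel of `π`: `ResF π.ker.subtype`, `ResF.projective`.) -/
theorem fix_surj_projective [Finite N] {F A : Type} [AddCommGroup F]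
    [Module (MonoidAlgebra ℤ N) F] [AddCommGroup A] [Module (MonoidAlgebra ℤ N) A]
    (ψ : F →ₗ[MonoidAlgebra ℤ N] A) (hψ : Function.Surjective ψ)
    (hfin : Module.Finite (MonoidAlgebra ℤ N) (LinearMap.ker ψ))
    (hL : Module.Projective (MonoidAlgebra ℤ N) (LinearMap.ker ψ)) :
    Function.Surjective (FixM.map π hπ ψ) := by
  have := Fintype.ofFinite π.ker
  exact wp_surj ψ hψ (wp_projective _ _ (ResF.projective π.ker.subtype
    (Subgroup.subtype_injective _) (LinearMap.ker ψ)))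

theorem fix_surj_finite [Finite N] {F A : Type} [AddCommGroup F]
    [Module (MonoidAlgebra ℤ N) F] [AddCommGroup A] [Module (MonoidAlgebra ℤ N) A]
    (ψ : F →ₗ[MonoidAlgebra ℤ N] A) (hψ : Function.Surjective ψ)
    (hfin : Finite (LinearMap.ker ψ))
    (hc : (Nat.card (LinearMap.ker ψ)).Coprime (Nat.card N)) :
    Function.Surjective (FixM.map π hπ ψ) := by
  have := Fintype.ofFinite π.ker
  have hfin' : Finite (ResF π.ker.subtype (LinearMap.ker ψ)) := hfin
  refine wp_surj ψ hψ (wp_finite _ _ ?_)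
  exact Nat.Coprime.coprime_dvd_right (Subgroup.card_subgroup_dvd_card π.ker) hc

end Pool.Agent.Lib.MP_0e6cae_nt.OM5
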