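import Pool.Agent.Lib.MP_0e6cae_nt.OM5.SecC
import Pool.Agent.Lib.MP_0e6cae_nt.OM5.Wp
import Pool.Agent.Lib.MP_0e6cae_nt.DH.Van

/-!
The vanishing theorem for sections.
-/

open CategoryTheory

namespace Pool.Agent.Lib.MP_0e6cae_nt.OM5

open SW KF DH

variable {N Q G : Type} [Group N] [Group Q] [Group G]

/-- Every finite module of order prime to `|Q|` of the form `M^H`, `H = ker π`, `M` a finite
`ℤ[G]`-module of order prime to `|G|`, has class zero. -/
def VanF [Finite Q] (π : N →* Q) (hπ : Function.Surjective π) (f : N →* G) : Prop :=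
  ∀ (M : Type) [AddCommGroup M] [Module (MonoidAlgebra ℤ G) M], FCop G M →
    ∀ h : FCop Q (FixM π hπ (ResF f M)), fcl Q (FixM π hπ (ResF f M)) h = 0

/-- (Strong induction on `|M|`: `0 → M[ℓ] → M → M/M[ℓ] → 0`, `fix_surj_finite`, `fcl_exact`.) -/
theorem vanF_of [Finite N] [Finite Q] [Finite G] (π : N →* Q) (hπ : Function.Surjective π)
    (f : N →* G) (hf : Function.Injective f)
    (h : ∀ (ℓ : ℕ) (V : Type) [AddCommGroup V] [Module (MonoidAlgebra ℤ G) V] [Finite V],
      ℓ.Prime → ¬ ℓ ∣ Nat.card G → (∀ y : V, ℓ • y = 0) →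
      ∀ h : FCop Q (FixM π hπ (ResF f V)), fcl Q (FixM π hπ (ResF f V)) h = 0) :
    VanF π hπ f := by
  suffices key : ∀ (n : ℕ) (M : Type) [AddCommGroup M] [Module (MonoidAlgebra ℤ G) M],
      FCop G M → Nat.card M = n → ∀ h : FCop Q (FixM π hπ (ResF f M)),
        fcl Q (FixM π hπ (ResF f M)) h = 0 from
    fun M _ _ hM hMQ => key _ M hM rfl hMQ
  intro n
  induction n using Nat.strong_induction_on with
  | _ n ih =>
    intro M _ _ hM hn hMQ
    have hfin : Finite M := hM.1
    rcases subsingleton_or_nontrivial M with h0 | h0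
    · have h1 : Subsingleton (FixM π hπ (ResF f M)) :=
        ⟨fun y z => FixM.ext (h0.elim ((ResF.of f M).symm y.val) ((ResF.of f M).symm z.val))⟩
      exact fcl_zero hMQ
    have hM1 : Nat.card M ≠ 1 := (Finite.one_lt_card (α := M)).ne'
    obtain ⟨p, hp, hpM⟩ := Nat.exists_prime_and_dvd hM1
    have := Fact.mk hp
    have hpG : ¬ p ∣ Nat.card G := fun h1 =>
      hp.one_lt.ne' (Nat.dvd_one.1 (hM.2 ▸ Nat.dvd_gcd hpM h1))
    let V : Submodule (MonoidAlgebra ℤ G) M :=
      { carrier := {y | p • y = 0}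
        add_mem' := fun {a b} ha hb => by
          change p • (a + b) = 0
          rw [smul_add, ha, hb, add_zero]
        zero_mem' := smul_zero _
        smul_mem' := fun c y hy => by
          change p • (c • y) = 0
          rw [smul_comm, hy, smul_zero] }
    have hVne : V ≠ ⊥ := by
      obtain ⟨y, hy⟩ := exists_prime_addOrderOf_dvd_card' p hpM
      rw [Submodule.ne_bot_iff]
      refine ⟨y, ?_, ?_⟩
      · change p • y = 0
        rw [← hy]
        exact addOrderOf_nsmul_eq_zero y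
      · rintro rfl
        rw [addOrderOf_zero] at hy
        exact hp.one_lt.ne hy
    have hVp : ∀ y : V, p • y = 0 := fun y => Subtype.ext y.2
    have hVG : FCop G V := hM.inj V.subtype.toAddMonoidHom Subtype.val_injective
    have hWG : FCop G (M ⧸ V) := hM.surj V.mkQ.toAddMonoidHom (Submodule.mkQ_surjective _)
    have hfinV : Finite V := hVG.1
    have hfinW : Finite (M ⧸ V) := hWG.1
    have hNG : Nat.card N ∣ Nat.card G := Subgroup.card_dvd_of_injective f hf
    have hQN : Nat.card Q ∣ Nat.card N := Subgroup.card_dvd_of_surjective π hπ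
    have hfx : ∀ (K : Type) [AddCommGroup K] [Module (MonoidAlgebra ℤ G) K], FCop G K →
        FCop Q (FixM π hπ (ResF f K)) := by
      intro K _ _ hK
      have h1 : FCop G (FixM π hπ (ResF f K)) :=
        hK.inj (FixM.valHom π hπ (ResF f K)) fun y z hyz => FixM.ext hyz
      exact ⟨h1.1, Nat.Coprime.coprime_dvd_right (hQN.trans hNG) h1.2⟩
    have hVQ := hfx V hVG
    have hWQ := hfx (M ⧸ V) hWG
    let ψ : ResF f M →ₗ[MonoidAlgebra ℤ N] ResF f (M ⧸ V) := ResF.map f V.mkQ
    let χ : ResF f V →ₗ[MonoidAlgebra ℤ N] ResF f M := ResF.map f V.subtype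
    have hψ : Function.Surjective ψ := Submodule.mkQ_surjective V
    have hχ : Function.Injective χ := Subtype.val_injective
    have hex : Function.Exact χ ψ := fun y => LinearMap.exact_subtype_mkQ V y
    have hkG : FCop G (LinearMap.ker ψ) :=
      hM.inj (LinearMap.ker ψ).subtype.toAddMonoidHom Subtype.val_injective
    have hsurj : Function.Surjective (FixM.map π hπ ψ) :=
      fix_surj_finite ψ hψ hkG.1 (Nat.Coprime.coprime_dvd_right hNG hkG.2)
    have hlt : Nat.card (M ⧸ V) < n := by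
      have h3 : Nat.card M = Nat.card V * Nat.card (M ⧸ V) :=
        Submodule.card_eq_card_quotient_mul_card V
      have h4 : 1 < Nat.card V := by
        have : Nontrivial V := (Submodule.nontrivial_iff_ne_bot).2 hVne
        exact Finite.one_lt_card
      rw [← hn, h3]
      exact lt_mul_left Nat.card_pos h4
    rw [fcl_exact hVQ hMQ hWQ (FixM.map π hπ χ) (FixM.map π hπ ψ) (FixM.map_injective _ hχ)
      (FixM.map_exact _ _ hχ hex) hsurj, h p V hp hpG hVp hVQ, ih _ hlt (M ⧸ V) hWG rfl hWQ,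
      add_zero]

/-- (`fcl_eq_zero`, `aut_fix`.) -/
theorem vanF_cyc {C : Type} [CommGroup C] [Finite C] [Finite N] [Finite G] (π : N →* C)
    (hπ : Function.Surjective π) (f : N →* G) (hf : Function.Injective f) (x : C)
    (hx : ∀ y : C, y ∈ Subgroup.zpowers x) (hR : Rat π f (MonoidHom.id C)) : VanF π hπ f := by
  refine vanF_of π hπ f hf fun ℓ V _ _ _ hℓ hℓG hV h => ?_
  refine fcl_eq_zero x hx _ h ?_
  intro a ha
  obtain ⟨F, hF⟩ := aut_fix π hπ f hf (MonoidHom.id C) Function.injective_id x hR ℓ hℓ hℓG V hV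
    a ha
  let o := ResF.of (MonoidHom.id C) (FixM π hπ (ResF f V))
  refine ⟨(o.trans F).trans o.symm, fun y => ?_⟩
  have h1 : o ((MonoidAlgebra.single x (1 : ℤ) : MonoidAlgebra ℤ C) • y) =
      (MonoidAlgebra.single x (1 : ℤ) : MonoidAlgebra ℤ C) • o y :=
    (ResF.single_smul (MonoidHom.id C) (FixM π hπ (ResF f V)) x 1 y).symm
  have h2 : ∀ z : FixM π hπ (ResF f V),
      o ((MonoidAlgebra.single x (1 : ℤ) : MonoidAlgebra ℤ C) ^ a • z) =
      (MonoidAlgebra.single x (1 : ℤ) : MonoidAlgebra ℤ C) ^ a • o z := by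
    intro z
    rw [MonoidAlgebra.single_pow, one_pow]
    exact (ResF.single_smul (MonoidHom.id C) (FixM π hπ (ResF f V)) (x ^ a) 1 z).symm
  change o.symm (F (o ((MonoidAlgebra.single x (1 : ℤ) : MonoidAlgebra ℤ C) • y))) =
    (MonoidAlgebra.single x (1 : ℤ) : MonoidAlgebra ℤ C) ^ a • o.symm (F (o y))
  rw [h1, hF, AddEquiv.symm_apply_eq, h2, AddEquiv.apply_symm_apply]

/-- (`fcl_eq_zero_dih`, `aut_fix`.) -/
theorem vanF_dih {C : Type} [CommGroup C] [Finite C] [Finite N] [Finite Q] [Finite G]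
    (k : C →* Q) (x : C) (s : Q) (D : Dih k x s) (π : N →* Q)
    (hπ : Function.Surjective π) (f : N →* G) (hf : Function.Injective f)
    (hR : Rat π f k) : VanF π hπ f :=
  vanF_of π hπ f hf fun ℓ V _ _ _ hℓ hℓG hV h =>
    fcl_eq_zero_dih D _ h (aut_fix π hπ f hf k D.inj x hR ℓ hℓ hℓG V hV)

end Pool.Agent.Lib.MP_0e6cae_nt.OM5
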