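import Pool.Agent.Lib.MP_0e6cae_nt.OM5.Cls
import Pool.Agent.Lib.MP_0e6cae_nt.OM5.Van
import Pool.Agent.Lib.MP_0e6cae_nt.OM5.St5
import Pool.Agent.Lib.MP_0e6cae_nt.DH.Grp

/-!
The vanishing theorem for a subquotient `N/H`, `H ≤ N ≤ Γ`.
-/

namespace Pool.Agent.Lib.MP_0e6cae_nt.OM5

open SW DH St

variable {G₀ : Type} [Group G₀] [Finite G₀]

/-- The condition on `x`, `H`, `Γ` in terms of the conjugacy classes: for all `a` prime to `n` and
all `i`, the cosets `x^i H` and `x^(i a) H` meet the conjugacy classes of `Γ` in the same numbers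
of elements. -/
def RatH (Γ H : Subgroup G₀) (x : G₀) (n : ℕ) : Prop :=
  ∀ a : ℕ, a.Coprime n → ∀ (i : ℕ) (g : G₀),
    Nat.card {h : H // ∃ γ ∈ Γ, γ * (x ^ i * h) * γ⁻¹ = g} =
      Nat.card {h : H // ∃ γ ∈ Γ, γ * (x ^ (i * a) * h) * γ⁻¹ = g}

/-- The elements of `N` over the class of `y` in a conjugacy class of `Γ`. -/
theorem quo_card (Γ N H : Subgroup G₀) (hN : N ≤ Γ) (hH : H ≤ N) [(H.subgroupOf N).Normal]
    (y : N) (g : Γ) :
    Nat.card {n : N // quo N H n = quo N H y ∧ IsConj (Subgroup.inclusion hN n) g} =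
      Nat.card {h : H // ∃ γ ∈ Γ, γ * ((y : G₀) * h) * γ⁻¹ = g} := by
  have key1 : ∀ n : N, quo N H n = quo N H y → (y : G₀)⁻¹ * n ∈ H := by
    intro n hn
    have h1 : y⁻¹ * n ∈ H.subgroupOf N := QuotientGroup.eq.1 hn.symm
    exact Subgroup.mem_subgroupOf.1 h1
  have key2 : ∀ h : H, ∃ n : N, (n : G₀) = y * h ∧ quo N H n = quo N H y := by
    intro h
    refine ⟨⟨y * h, N.mul_mem y.2 (hH h.2)⟩, rfl, ?_⟩
    refine (QuotientGroup.eq.2 ?_).symm
    rw [Subgroup.mem_subgroupOf]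
    have h1 : ((y⁻¹ * ⟨(y : G₀) * h, N.mul_mem y.2 (hH h.2)⟩ : N) : G₀) = h := by
      rw [Subgroup.coe_mul, Subgroup.coe_inv, inv_mul_cancel_left]
    rw [h1]
    exact h.2
  have key3 : ∀ n : N, IsConj (Subgroup.inclusion hN n) g ↔ ∃ γ ∈ Γ, γ * (n : G₀) * γ⁻¹ = g := by
    intro n
    rw [isConj_iff]
    constructor
    · rintro ⟨c, hc⟩
      exact ⟨c, c.2, congrArg (Subtype.val (p := fun z => z ∈ Γ)) hc⟩
    · rintro ⟨γ, hγ, h⟩
      exact ⟨⟨γ, hγ⟩, Subtype.ext h⟩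
  refine Nat.card_congr ⟨fun n => ⟨⟨(y : G₀)⁻¹ * n.1, key1 n.1 n.2.1⟩, ?_⟩,
    fun h => ⟨⟨y * h.1, N.mul_mem y.2 (hH h.1.2)⟩, ?_, ?_⟩, ?_, ?_⟩
  · obtain ⟨γ, hγ, h⟩ := (key3 n.1).1 n.2.2
    refine ⟨γ, hγ, ?_⟩
    simp only
    rw [mul_inv_cancel_left]
    exact h
  · obtain ⟨n, hn, hn'⟩ := key2 h.1
    have h1 : n = ⟨y * h.1, N.mul_mem y.2 (hH h.1.2)⟩ := Subtype.ext hn
    rw [← h1]
    exact hn'
  · rw [key3]
    exact h.2
  · intro n
    refine Subtype.ext (Subtype.ext ?_)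
    simp only
    rw [mul_inv_cancel_left]
  · intro h
    refine Subtype.ext (Subtype.ext ?_)
    simp only
    rw [inv_mul_cancel_left]

/-- (`C` is generated by the class of `x`; for `a` prime to `|C|` choose `a' ≡ a` modulo `|C|`
prime to `|N|` (`ZMod.unitsMap_surjective`); `h ↦ x^i h` is a bijection from `H` to the elements
of `N` over `x^i H`; elements of `Γ` are conjugate in `Γ` iff `∃ γ ∈ Γ, ...`.) -/
theorem rat_of_ratH (Γ N H : Subgroup G₀) (hN : N ≤ Γ) (hH : H ≤ N) [(H.subgroupOf N).Normal]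
    (x : G₀) (hx : x ∈ N) (hR : RatH Γ H x (Nat.card N)) {C : Type} [CommGroup C] [Finite C]
    (c : C) (hc : ∀ y : C, y ∈ Subgroup.zpowers c) (j : C →* (N ⧸ H.subgroupOf N))
    (hj : Function.Injective j) (hjc : j c = quo N H ⟨x, hx⟩) :
    Rat (quo N H) (Subgroup.inclusion hN) j := by
  intro a ha z g
  have hdvd : Nat.card C ∣ Nat.card N :=
    (Subgroup.card_dvd_of_injective j hj).trans (Subgroup.card_quotient_dvd_card _)
  obtain ⟨b, hb, hba⟩ := KF.exists_lift_coprime (Nat.card N) (Nat.card C) a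
    (Nat.card_pos (α := N)).ne' hdvd ha
  have hzb : z ^ a = z ^ b := by
    rw [pow_eq_pow_iff_modEq]
    exact (hba.symm).of_dvd (orderOf_dvd_natCard z)
  obtain ⟨i, hi⟩ : ∃ i : ℕ, c ^ i = z :=
    (isOfFinOrder_of_finite c).mem_powers_iff_mem_zpowers.2 (hc z)
  have h1 : ∀ m : ℕ, j (c ^ m) = quo N H (⟨x, hx⟩ ^ m) := by
    intro m
    rw [map_pow, map_pow, hjc]
  have h2 : ∀ m : ℕ, Nat.card {n : N // quo N H n = j (c ^ m) ∧
      IsConj (Subgroup.inclusion hN n) g} =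
      Nat.card {h : H // ∃ γ ∈ Γ, γ * (x ^ m * (h : G₀)) * γ⁻¹ = g} := by
    intro m
    rw [h1 m]
    have h3 := quo_card Γ N H hN hH (⟨x, hx⟩ ^ m) g
    rw [Subgroup.coe_pow] at h3
    exact h3
  rw [hzb, ← hi, ← pow_mul, h2, h2]
  exact hR b hb i g

/-- (In `Q = N/H`: either every element is a power of the class of `x`, then `vanF_cyc` with
`CommGroup` from `IsCyclic.commGroup`; or `Q` is generated by the classes of `x` and `s`: if `s` is
in `⟨x⟩` the first case again, otherwise `Dih` with `C = zpowers`, `j = subtype`, `vanF_dih`;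
cf. `DH.exists_dih`, `DH.van_incl`.) -/
theorem vanF_quo (Γ N H : Subgroup G₀) (hN : N ≤ Γ) (hH : H ≤ N) [(H.subgroupOf N).Normal]
    (x : G₀) (hx : x ∈ N)
    (hNx : (∀ y ∈ N, ∃ i : ℤ, x ^ i * y ∈ H) ∨
      ∃ s ∈ N, s * s ∈ H ∧ s * x * s⁻¹ * x ∈ H ∧
        ∀ y ∈ N, ∃ i : ℤ, x ^ i * y ∈ H ∨ x ^ i * s * y ∈ H)
    (hΓ : RatH Γ H x (Nat.card N) ∨ ∃ m : ℕ, Nonempty (Γ ≃* Equiv.Perm (Fin m))) :
    VanF (quo N H) (quo_surjective N H) (Subgroup.inclusion hN) := by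
  let X : N ⧸ H.subgroupOf N := quo N H ⟨x, hx⟩
  have hone : ∀ y : N, quo N H y = 1 ↔ (y : G₀) ∈ H := by
    intro y
    exact (QuotientGroup.eq_one_iff y).trans Subgroup.mem_subgroupOf
  -- the condition `Rat` for a homomorphism from a cyclic group
  have hrat : ∀ (C : Type) [CommGroup C] [Finite C] (c : C) (_ : ∀ y : C, y ∈ Subgroup.zpowers c)
      (j : C →* (N ⧸ H.subgroupOf N)) (_ : Function.Injective j) (_ : j c = X),
      Rat (quo N H) (Subgroup.inclusion hN) j := by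
    intro C _ _ c hc j hj hjc
    rcases hΓ with hR | ⟨m, ⟨e⟩⟩
    · exact rat_of_ratH Γ N H hN hH x hx hR c hc j hj hjc
    · exact rat_of_perm (quo N H) (quo_surjective N H) (Subgroup.inclusion hN)
        (Subgroup.inclusion_injective hN) j hj m e
  -- the cyclic case
  have hcyc : (∀ q : N ⧸ H.subgroupOf N, q ∈ Subgroup.zpowers X) →
      VanF (quo N H) (quo_surjective N H) (Subgroup.inclusion hN) := by
    intro hX
    have hQ : IsCyclic (N ⧸ H.subgroupOf N) := ⟨X, hX⟩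
    let inst : CommGroup (N ⧸ H.subgroupOf N) := IsCyclic.commGroup
    exact vanF_cyc (C := N ⧸ H.subgroupOf N) (quo N H) (quo_surjective N H)
      (Subgroup.inclusion hN) (Subgroup.inclusion_injective hN) X hX
      (hrat (N ⧸ H.subgroupOf N) X hX (MonoidHom.id _) (fun _ _ h => h) rfl)
  rcases hNx with hNx | ⟨s, hs, hss, hsx, hall⟩
  · refine hcyc fun q => ?_
    obtain ⟨y, rfl⟩ := quo_surjective N H q
    obtain ⟨i, hi⟩ := hNx y y.2
    have h1 : quo N H (⟨x, hx⟩ ^ i * y) = 1 := (hone _).2 hi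
    rw [map_mul, map_zpow] at h1
    refine ⟨-i, ?_⟩
    simp only
    rw [zpow_neg]
    exact inv_eq_of_mul_eq_one_right h1
  · let S : N ⧸ H.subgroupOf N := quo N H ⟨s, hs⟩
    have hSS : S * S = 1 := by
      have h1 : quo N H (⟨s, hs⟩ * ⟨s, hs⟩) = 1 := (hone _).2 hss
      rwa [map_mul] at h1
    have hSX : S * X * S⁻¹ = X⁻¹ := by
      have h1 : quo N H (⟨s, hs⟩ * ⟨x, hx⟩ * ⟨s, hs⟩⁻¹ * ⟨x, hx⟩) = 1 := (hone _).2 hsx
      rw [map_mul, map_mul, map_mul, map_inv] at h1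
      exact eq_inv_of_mul_eq_one_left h1
    have hSinv : S⁻¹ = S := inv_eq_of_mul_eq_one_left hSS
    have hgen : ∀ q : N ⧸ H.subgroupOf N, ∃ c ∈ Subgroup.zpowers X, q = c ∨ q = c * S := by
      intro q
      obtain ⟨y, rfl⟩ := quo_surjective N H q
      obtain ⟨i, hi⟩ := hall y y.2
      rcases hi with hi | hi
      · have h1 : quo N H (⟨x, hx⟩ ^ i * y) = 1 := (hone _).2 hi
        rw [map_mul, map_zpow] at h1
        exact ⟨X ^ (-i), ⟨-i, rfl⟩, Or.inl (by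
          rw [zpow_neg]
          exact (inv_eq_of_mul_eq_one_right h1).symm)⟩
      · have h1 : quo N H (⟨x, hx⟩ ^ i * ⟨s, hs⟩ * y) = 1 := (hone _).2 hi
        rw [map_mul, map_mul, map_zpow] at h1
        refine ⟨X ^ i, ⟨i, rfl⟩, Or.inr ?_⟩
        have h2 : quo N H y = (X ^ i * S)⁻¹ := (inv_eq_of_mul_eq_one_right h1).symm
        rw [h2, mul_inv_rev, hSinv, conj_zpowers X S hSS hSX _ (inv_mem ⟨i, rfl⟩), inv_inv]
    by_cases hns : S ∈ Subgroup.zpowers X
    · refine hcyc fun q => ?_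
      obtain ⟨c, hc, h | h⟩ := hgen q
      · rw [h]
        exact hc
      · rw [h]
        exact mul_mem hc hns
    · let inst : CommGroup (Subgroup.zpowers X) := IsCyclic.commGroup
      have hD : Dih (Subgroup.zpowers X).subtype
          (⟨X, Subgroup.mem_zpowers X⟩ : Subgroup.zpowers X) S := by
        refine ⟨Subtype.val_injective, ?_, hSS, ?_, ?_, ?_⟩
        · rintro ⟨y, k, rfl⟩
          exact ⟨k, Subtype.ext rfl⟩
        · rintro ⟨c, hc⟩
          exact conj_zpowers X S hSS hSX c hc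
        · rintro ⟨c, hc⟩ h
          have h1 : c = S := h
          exact hns (h1 ▸ hc)
        · intro q
          obtain ⟨c, hc, h⟩ := hgen q
          exact ⟨⟨c, hc⟩, h⟩
      exact vanF_dih (Subgroup.zpowers X).subtype
        (⟨X, Subgroup.mem_zpowers X⟩ : Subgroup.zpowers X) S hD (quo N H) (quo_surjective N H)
        (Subgroup.inclusion hN) (Subgroup.inclusion_injective hN)
        (hrat (Subgroup.zpowers X) ⟨X, Subgroup.mem_zpowers X⟩ hD.gen
          (Subgroup.zpowers X).subtype Subtype.val_injective rfl)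

end Pool.Agent.Lib.MP_0e6cae_nt.OM5
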