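import Pool.Agent.Lib.MP_0e6cae_nt.OM5.Quo

/-!
The condition `RatH` for rational elements.
-/

namespace Pool.Agent.Lib.MP_0e6cae_nt.OM5

open SW DH St

variable {G₀ : Type} [Group G₀] [Finite G₀]

/-- The powers of the elements of a coset of a normal subgroup. -/
theorem ratC_pow (N H : Subgroup G₀) (hH : H ≤ N) [(H.subgroupOf N).Normal] (y z : G₀)
    (hy : y ∈ N) (hz : z ∈ N) (h : y⁻¹ * z ∈ H) (a : ℕ) : (y ^ a)⁻¹ * z ^ a ∈ H := by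
  have h1 : quo N H ⟨y, hy⟩ = quo N H ⟨z, hz⟩ := by
    refine QuotientGroup.eq.2 ?_
    rw [Subgroup.mem_subgroupOf]
    exact h
  have h2 : quo N H ⟨y ^ a, pow_mem hy a⟩ = quo N H ⟨z ^ a, pow_mem hz a⟩ := by
    have h3 : (⟨y ^ a, pow_mem hy a⟩ : N) = ⟨y, hy⟩ ^ a := rfl
    have h4 : (⟨z ^ a, pow_mem hz a⟩ : N) = ⟨z, hz⟩ ^ a := rfl
    rw [h3, h4, map_pow, map_pow, h1]
  have h5 := QuotientGroup.eq.1 h2
  rw [Subgroup.mem_subgroupOf] at h5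
  exact h5

theorem ratC_le (Γ N H : Subgroup G₀) (hH : H ≤ N) [(H.subgroupOf N).Normal]
    (x : G₀) (hx : x ∈ N)
    (h : ∀ y ∈ N, ∀ a : ℕ, a.Coprime (orderOf y) → ∃ γ ∈ Γ, γ * y * γ⁻¹ = y ^ a)
    (a : ℕ) (ha : a.Coprime (Nat.card N)) (i : ℕ) (g : G₀) :
    Nat.card {h : H // ∃ γ ∈ Γ, γ * (x ^ i * h) * γ⁻¹ = g} ≤
      Nat.card {h : H // ∃ γ ∈ Γ, γ * (x ^ (i * a) * h) * γ⁻¹ = g} := by
  have hmem : ∀ y : H, x ^ i * (y : G₀) ∈ N := fun y => mul_mem (pow_mem hx i) (hH y.2)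
  have h1 : ∀ y : H, (x ^ (i * a))⁻¹ * (x ^ i * (y : G₀)) ^ a ∈ H := by
    intro y
    rw [pow_mul]
    refine ratC_pow N H hH _ _ (pow_mem hx i) (hmem y) ?_ a
    rw [inv_mul_cancel_left]
    exact y.2
  refine Nat.card_le_card_of_injective
    (fun y : {h : H // ∃ γ ∈ Γ, γ * (x ^ i * h) * γ⁻¹ = g} =>
      (⟨⟨(x ^ (i * a))⁻¹ * (x ^ i * (y.1 : G₀)) ^ a, h1 y.1⟩, by
        obtain ⟨γ, hγ, hγ'⟩ := y.2
        obtain ⟨δ, hδ, hδ'⟩ := h _ (hmem y.1) a (Nat.Coprime.coprime_dvd_right (by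
          have h2 := orderOf_dvd_natCard (⟨_, hmem y.1⟩ : N)
          rwa [Subgroup.orderOf_mk] at h2) ha)
        refine ⟨γ * δ⁻¹, mul_mem hγ (inv_mem hδ), ?_⟩
        rw [mul_inv_cancel_left, ← hδ']
        refine Eq.trans ?_ hγ'
        group⟩ : {h : H // ∃ γ ∈ Γ, γ * (x ^ (i * a) * h) * γ⁻¹ = g})) ?_
  intro y z hyz
  have h2 : (x ^ (i * a))⁻¹ * (x ^ i * (y.1 : G₀)) ^ a =
      (x ^ (i * a))⁻¹ * (x ^ i * (z.1 : G₀)) ^ a := congrArg (fun w => ((w.1 : H) : G₀)) hyz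
  have h3 := mul_left_cancel h2
  have h4 : (⟨_, hmem y.1⟩ : N) ^ a = (⟨_, hmem z.1⟩ : N) ^ a := Subtype.ext h3
  have h5 := (Nat.Coprime.pow_left_bijective ha.symm).1 h4
  have h6 : x ^ i * (y.1 : G₀) = x ^ i * (z.1 : G₀) := congrArg Subtype.val h5
  exact Subtype.ext (Subtype.ext (mul_left_cancel h6))

theorem ratH_of_conj (Γ N H : Subgroup G₀) (hH : H ≤ N) [(H.subgroupOf N).Normal]
    (x : G₀) (hx : x ∈ N)
    (h : ∀ y ∈ N, ∀ a : ℕ, a.Coprime (orderOf y) → ∃ γ ∈ Γ, γ * y * γ⁻¹ = y ^ a) :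
    RatH Γ H x (Nat.card N) := by
  intro a ha i g
  have hxc : x ^ Nat.card N = 1 := by
    have h1 : (⟨x, hx⟩ : N) ^ Nat.card N = 1 := pow_card_eq_one'
    exact congrArg Subtype.val h1
  rcases (Nat.one_le_iff_ne_zero.2 Nat.card_pos.ne' : 1 ≤ Nat.card N).eq_or_lt with h1 | h1
  · have hx1 : x = 1 := by rw [← h1, pow_one] at hxc; exact hxc
    rw [hx1, one_pow, one_pow]
  · obtain ⟨b, -, hb⟩ := Nat.exists_mul_mod_eq_one_of_coprime ha h1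
    have hb' : a * b ≡ 1 [MOD Nat.card N] := by
      rw [Nat.ModEq, hb, Nat.mod_eq_of_lt h1]
    have hbc : b.Coprime (Nat.card N) := by
      have h2 : (a * b).Coprime (Nat.card N) := by
        rw [Nat.Coprime, hb'.gcd_eq, Nat.gcd_one_left]
      exact Nat.Coprime.coprime_mul_left h2
    refine le_antisymm (ratC_le Γ N H hH x hx h a ha i g) ?_
    have h3 := ratC_le Γ N H hH x hx h b hbc (i * a) g
    have h4 : x ^ (i * a * b) = x ^ i := by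
      rw [mul_assoc]
      have h5 : i * (a * b) ≡ i * 1 [MOD orderOf x] :=
        (hb'.of_dvd (orderOf_dvd_of_pow_eq_one hxc)).mul_left i
      rw [mul_one] at h5
      exact pow_eq_pow_iff_modEq.2 h5
    rw [h4] at h3
    exact h3

end Pool.Agent.Lib.MP_0e6cae_nt.OM5
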