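import Pool.Agent.Lib.MP_0e6cae_nt.OM5.TwA
import Pool.Agent.Lib.MP_0e6cae_nt.OM5.Fix
import Pool.Agent.Lib.MP_0e6cae_nt.DH.Base

/-!
Sections: `π : N → Q` surjective, `f : N → G`; the elements of `ℤ[G]` which act on the modules
killed by `ℓ` as the elements of `ℤ[Q]` act on the elements fixed by the kernel of `π`.
-/

namespace Pool.Agent.Lib.MP_0e6cae_nt.OM5

open SW DH

variable {N Q G : Type} [Group N] [Group Q] [Group G]

/-- `∑ c(π n) f(n)`. -/
noncomputable def sec [Fintype N] (π : N →* Q) (f : N →* G) (c : MonoidAlgebra ℤ Q) :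
    MonoidAlgebra ℤ G :=
  ∑ n : N, MonoidAlgebra.single (f n) (c.coeff (π n))

theorem sec_add [Fintype N] (π : N →* Q) (f : N →* G) (c c' : MonoidAlgebra ℤ Q) :
    sec π f (c + c') = sec π f c + sec π f c' := by
  unfold sec
  rw [← Finset.sum_add_distrib]
  refine Finset.sum_congr rfl fun n _ => ?_
  rw [MonoidAlgebra.coeff_add, Finsupp.add_apply, MonoidAlgebra.single_add]

theorem sec_zero [Fintype N] (π : N →* Q) (f : N →* G) : sec π f 0 = 0 := by
  unfold sec
  refine Finset.sum_eq_zero fun n _ => ?_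
  rw [MonoidAlgebra.coeff_zero, Finsupp.zero_apply, MonoidAlgebra.single_zero]

theorem secA_coeff_one [DecidableEq Q] (q : Q) :
    (1 : MonoidAlgebra ℤ Q).coeff q = if q = 1 then 1 else 0 := by
  rw [MonoidAlgebra.one_def, MonoidAlgebra.coeff_single, Finsupp.single_apply]
  by_cases h : q = 1
  · rw [if_pos h, if_pos h.symm]
  · rw [if_neg h, if_neg (fun h' => h h'.symm)]

theorem secA_single [Fintype N] (π : N →* Q) (f : N →* G) (n : N) (a : ℤ) :
    sec π f (MonoidAlgebra.single (π n) a) = MonoidAlgebra.single (f n) a * sec π f 1 := by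
  classical
  unfold sec
  rw [Finset.mul_sum]
  refine (Fintype.sum_equiv (Equiv.mulLeft n) _ _ fun k => ?_).symm
  rw [Equiv.coe_mulLeft, MonoidAlgebra.single_mul_single, secA_coeff_one,
    MonoidAlgebra.coeff_single, Finsupp.single_apply, map_mul, map_mul]
  by_cases h : π k = 1
  · rw [if_pos h, if_pos (by rw [h, mul_one]), mul_one]
  · rw [if_neg h, if_neg (fun h' => h (mul_eq_left.1 h'.symm)), mul_zero]

theorem secA_comm [Fintype N] (π : N →* Q) (f : N →* G) (n : N) (a : ℤ) :
    sec π f 1 * MonoidAlgebra.single (f n) a = MonoidAlgebra.single (f n) a * sec π f 1 := by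
  classical
  unfold sec
  rw [Finset.mul_sum, Finset.sum_mul]
  refine Fintype.sum_equiv (MulAut.conj n⁻¹).toEquiv _ _ fun k => ?_
  have h1 : (MulAut.conj n⁻¹).toEquiv k = n⁻¹ * k * n := by
    show MulAut.conj n⁻¹ k = _
    rw [MulAut.conj_apply, inv_inv]
  rw [h1, MonoidAlgebra.single_mul_single, MonoidAlgebra.single_mul_single, secA_coeff_one,
    secA_coeff_one]
  have h2 : f n * f (n⁻¹ * k * n) = f k * f n := by
    rw [← map_mul, ← map_mul]
    congr 1
    group
  have h3 : π (n⁻¹ * k * n) = 1 ↔ π k = 1 := by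
    rw [map_mul, map_mul, map_inv]
    constructor
    · intro h
      have h4 : π k = π n * ((π n)⁻¹ * π k * π n) * (π n)⁻¹ := by group
      rw [h4, h, mul_one, mul_inv_cancel]
    · intro h
      rw [h, mul_one, inv_mul_cancel]
  rw [h2, mul_comm a]
  by_cases h : π k = 1
  · rw [if_pos h, if_pos (h3.2 h)]
  · rw [if_neg h, if_neg (fun h' => h (h3.1 h'))]

theorem secA_ker [Fintype N] (π : N →* Q) (f : N →* G) (n : N) (hn : π n = 1) :
    MonoidAlgebra.single (f n) 1 * sec π f 1 = sec π f 1 := by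
  rw [← secA_single π f n 1, hn, ← MonoidAlgebra.one_def]

theorem secA_card [Fintype N] (π : N →* Q) [DecidablePred fun n : N => π n = 1] :
    (Finset.univ.filter fun n : N => π n = 1).card = Nat.card π.ker := by
  rw [← Fintype.card_subtype, ← Nat.card_eq_fintype_card]
  exact Nat.card_congr (Equiv.subtypeEquivRight fun n => by rw [MonoidHom.mem_ker])

theorem secA_sq [Fintype N] (π : N →* Q) (f : N →* G) :
    sec π f 1 * sec π f 1 = (Nat.card π.ker : MonoidAlgebra ℤ G) * sec π f 1 := by
  classical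
  have h1 : ∀ n : N, MonoidAlgebra.single (f n) ((1 : MonoidAlgebra ℤ Q).coeff (π n)) *
      sec π f 1 = if π n = 1 then sec π f 1 else 0 := by
    intro n
    rw [secA_coeff_one]
    by_cases h : π n = 1
    · rw [if_pos h, if_pos h, secA_ker π f n h]
    · rw [if_neg h, if_neg h, MonoidAlgebra.single_zero, zero_mul]
  calc sec π f 1 * sec π f 1 =
      (∑ n : N, MonoidAlgebra.single (f n) ((1 : MonoidAlgebra ℤ Q).coeff (π n))) *
        sec π f 1 := rfl
    _ = ∑ n : N, if π n = 1 then sec π f 1 else 0 := by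
      rw [Finset.sum_mul]
      exact Finset.sum_congr rfl fun n _ => h1 n
    _ = (Nat.card π.ker : MonoidAlgebra ℤ G) * sec π f 1 := by
      rw [← Finset.sum_filter, Finset.sum_const, secA_card, nsmul_eq_mul]

/-- (Induction on `c`; `sec (single (π m) 1) = f(m) ∑_{h ∈ ker π} f(h)`.) -/
theorem sec_mul [Fintype N] (π : N →* Q) (hπ : Function.Surjective π) (f : N →* G)
    (c c' : MonoidAlgebra ℤ Q) :
    sec π f c * sec π f c' = (Nat.card π.ker : MonoidAlgebra ℤ G) * sec π f (c * c') := by
  induction c using MonoidAlgebra.induction_linear with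
  | zero => rw [sec_zero, zero_mul, zero_mul, sec_zero, mul_zero]
  | add a b ha hb => rw [sec_add, add_mul, add_mul, sec_add, mul_add, ha, hb]
  | single q a =>
    induction c' using MonoidAlgebra.induction_linear with
    | zero => rw [sec_zero, mul_zero, mul_zero, sec_zero, mul_zero]
    | add a b ha hb => rw [sec_add, mul_add, mul_add, sec_add, mul_add, ha, hb]
    | single r b =>
      obtain ⟨n, rfl⟩ := hπ q
      obtain ⟨k, rfl⟩ := hπ r
      rw [MonoidAlgebra.single_mul_single, ← map_mul, secA_single, secA_single, secA_single,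
        map_mul, ← MonoidAlgebra.single_mul_single]
      calc MonoidAlgebra.single (f n) a * sec π f 1 * (MonoidAlgebra.single (f k) b * sec π f 1)
          = MonoidAlgebra.single (f n) a * (sec π f 1 * MonoidAlgebra.single (f k) b) *
            sec π f 1 := by simp only [mul_assoc]
        _ = MonoidAlgebra.single (f n) a * MonoidAlgebra.single (f k) b *
            (sec π f 1 * sec π f 1) := by rw [secA_comm]; simp only [mul_assoc]
        _ = _ := by
          rw [secA_sq, ← mul_assoc, ← mul_assoc, ← Nat.cast_comm]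

/-- The sum over the kernel of `π`, an element fixed by the kernel. -/
noncomputable def nrmF [Fintype N] (π : N →* Q) (hπ : Function.Surjective π) (f : N →* G)
    (V : Type) [AddCommGroup V] [Module (MonoidAlgebra ℤ G) V] (y : V) :
    FixM π hπ (ResF f V) :=
  FixM.mk (ResF.of f V (sec π f 1 • y)) (fun h hh => by
    rw [ResF.single_smul, ← mul_smul, secA_ker π f h hh])

theorem secA_nrmF_val [Fintype N] (π : N →* Q) (hπ : Function.Surjective π) (f : N →* G)
    (V : Type) [AddCommGroup V] [Module (MonoidAlgebra ℤ G) V] (y : V) :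
    (nrmF π hπ f V y).val = ResF.of f V (sec π f 1 • y) := rfl

/-- `sec c` acts as `c` after the sum over the kernel. -/
theorem sec_smul [Fintype N] (π : N →* Q) (hπ : Function.Surjective π) (f : N →* G)
    (V : Type) [AddCommGroup V] [Module (MonoidAlgebra ℤ G) V] (c : MonoidAlgebra ℤ Q) (y : V) :
    ResF.of f V (sec π f c • y) = (c • nrmF π hπ f V y).val := by
  induction c using MonoidAlgebra.induction_linear with
  | zero => rw [sec_zero, zero_smul, zero_smul, map_zero, FixM.val_zero]
  | add a b ha hb => rw [sec_add, add_smul, add_smul, map_add, ha, hb, FixM.val_add]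
  | single q a =>
    obtain ⟨n, rfl⟩ := hπ q
    rw [FixM.single_smul, secA_nrmF_val, ResF.single_smul, ← mul_smul, secA_single]

/-- On the fixed elements the sum over the kernel is the multiplication by `|ker π|`. -/
theorem nrmF_fix [Fintype N] (π : N →* Q) (hπ : Function.Surjective π) (f : N →* G)
    (V : Type) [AddCommGroup V] [Module (MonoidAlgebra ℤ G) V] (y : FixM π hπ (ResF f V)) :
    nrmF π hπ f V ((ResF.of f V).symm y.val) = Nat.card π.ker • y := by
  classical
  refine FixM.ext ?_
  rw [secA_nrmF_val, FixM.val_nsmul]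
  have h1 : ∀ n : N, ResF.of f V ((MonoidAlgebra.single (f n)
      ((1 : MonoidAlgebra ℤ Q).coeff (π n)) : MonoidAlgebra ℤ G) • (ResF.of f V).symm y.val) =
      if π n = 1 then y.val else 0 := by
    intro n
    rw [← ResF.single_smul, AddEquiv.apply_symm_apply, secA_coeff_one]
    by_cases h : π n = 1
    · rw [if_pos h, if_pos h, y.prop n h]
    · rw [if_neg h, if_neg h, MonoidAlgebra.single_zero, zero_smul]
  unfold sec
  rw [Finset.sum_smul, map_sum, Finset.sum_congr rfl fun n _ => h1 n, ← Finset.sum_filter,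
    Finset.sum_const, secA_card]

/-- (`m |ker π| ≡ 1` modulo `ℓ`; `V → V^H`, `y ↦ m (sum over the kernel of y)`, is surjective.) -/
theorem sec_card [Fintype N] (π : N →* Q) (hπ : Function.Surjective π) (f : N →* G) (ℓ : ℕ)
    (V : Type) [AddCommGroup V] [Module (MonoidAlgebra ℤ G) V] [Finite V]
    (hV : ∀ y : V, ℓ • y = 0) (m : ℕ) (hm : m * Nat.card π.ker ≡ 1 [MOD ℓ])
    (c : MonoidAlgebra ℤ Q) :
    Nat.card (Set.range fun y : V => (m • sec π f c) • y) =
      Nat.card (Set.range fun y : FixM π hπ (ResF f V) => c • y) := by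
  have hsm : ∀ y : FixM π hπ (ResF f V), (m * Nat.card π.ker) • y = y := by
    intro y
    have hℓ : ℓ • y = 0 := by
      refine FixM.ext ?_
      rw [FixM.val_nsmul, FixM.val_zero]
      exact hV _
    have h1 : ((m * Nat.card π.ker : ℕ) : ZMod ℓ) = ((1 : ℕ) : ZMod ℓ) :=
      (ZMod.natCast_eq_natCast_iff _ _ _).2 hm
    have h2 : (ℓ : ℤ) ∣ ((m * Nat.card π.ker : ℕ) : ℤ) - ((1 : ℕ) : ℤ) :=
      (ZMod.intCast_eq_intCast_iff_dvd_sub _ _ _).1 (by
        rw [Int.cast_natCast, Int.cast_natCast]; exact h1.symm)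
    obtain ⟨k, hk⟩ := h2
    have h3 : (((m * Nat.card π.ker : ℕ) : ℤ) - ((1 : ℕ) : ℤ)) • y = 0 := by
      rw [hk, mul_comm, mul_smul, natCast_zsmul, hℓ, smul_zero]
    rw [sub_smul, natCast_zsmul, natCast_zsmul, one_smul, sub_eq_zero] at h3
    exact h3
  have hset : (ResF.of f V) '' (Set.range fun y : V => (m • sec π f c) • y) =
      FixM.val '' (Set.range fun y : FixM π hπ (ResF f V) => c • y) := by
    ext x
    constructor
    · rintro ⟨_, ⟨y, rfl⟩, rfl⟩
      refine ⟨_, ⟨m • nrmF π hπ f V y, rfl⟩, ?_⟩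
      beta_reduce
      rw [smul_comm c m, FixM.val_nsmul, ← sec_smul, smul_assoc, map_nsmul]
    · rintro ⟨_, ⟨y, rfl⟩, rfl⟩
      refine ⟨_, ⟨(ResF.of f V).symm y.val, rfl⟩, ?_⟩
      beta_reduce
      rw [smul_assoc, map_nsmul, sec_smul, nrmF_fix, ← FixM.val_nsmul, smul_comm m c,
        ← mul_smul m, hsm]
  rw [← Nat.card_image_of_injective (ResF.of f V).injective, hset,
    Nat.card_image_of_injective (fun a b h => FixM.ext h)]

theorem sec_idm [Fintype N] (π : N →* Q) (hπ : Function.Surjective π) (f : N →* G) (q : ℕ)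
    (m : ℕ) (hm : m * Nat.card π.ker ≡ 1 [MOD q]) (c : MonoidAlgebra ℤ Q) (hc : Idm q c) :
    Idm q (m • sec π f c) := by
  have h1 : ((m * Nat.card π.ker : ℕ) : ZMod q) = ((1 : ℕ) : ZMod q) :=
    (ZMod.natCast_eq_natCast_iff _ _ _).2 hm
  have h1' : (m : MonoidAlgebra (ZMod q) G) * (Nat.card π.ker : MonoidAlgebra (ZMod q) G) = 1 := by
    have h2 := congrArg (algebraMap (ZMod q) (MonoidAlgebra (ZMod q) G)) h1
    rw [Nat.cast_mul, map_mul, map_natCast, map_natCast, Nat.cast_one, map_one] at h2
    exact h2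
  have hred : ∀ a b : MonoidAlgebra ℤ Q,
      MonoidAlgebra.mapRingHom Q (Int.castRingHom (ZMod q)) a =
        MonoidAlgebra.mapRingHom Q (Int.castRingHom (ZMod q)) b →
      MonoidAlgebra.mapRingHom G (Int.castRingHom (ZMod q)) (sec π f a) =
        MonoidAlgebra.mapRingHom G (Int.castRingHom (ZMod q)) (sec π f b) := by
    intro a b hab
    unfold sec
    rw [map_sum, map_sum]
    refine Finset.sum_congr rfl fun n _ => ?_
    rw [MonoidAlgebra.mapRingHom_single, MonoidAlgebra.mapRingHom_single,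
      ← MonoidAlgebra.coeff_mapRingHom, ← MonoidAlgebra.coeff_mapRingHom, hab]
  have h3 := hred (c * c) c (by rw [map_mul]; exact hc)
  show MonoidAlgebra.mapRingHom G (Int.castRingHom (ZMod q)) (m • sec π f c) *
    MonoidAlgebra.mapRingHom G (Int.castRingHom (ZMod q)) (m • sec π f c) = _
  rw [nsmul_eq_mul, map_mul, map_natCast]
  have h4 : MonoidAlgebra.mapRingHom G (Int.castRingHom (ZMod q)) (sec π f c) *
      MonoidAlgebra.mapRingHom G (Int.castRingHom (ZMod q)) (sec π f c) =
      (Nat.card π.ker : MonoidAlgebra (ZMod q) G) *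
        MonoidAlgebra.mapRingHom G (Int.castRingHom (ZMod q)) (sec π f c) := by
    rw [← map_mul, sec_mul π hπ, map_mul, map_natCast, h3]
  obtain ⟨X, hX⟩ : ∃ X, X = MonoidAlgebra.mapRingHom G (Int.castRingHom (ZMod q)) (sec π f c) :=
    ⟨_, rfl⟩
  rw [← hX] at h4 ⊢
  calc (m : MonoidAlgebra (ZMod q) G) * X * ((m : MonoidAlgebra (ZMod q) G) * X)
      = (m : MonoidAlgebra (ZMod q) G) * (m : MonoidAlgebra (ZMod q) G) * (X * X) := by
        rw [mul_assoc, ← mul_assoc X, ← Nat.cast_comm, mul_assoc, mul_assoc]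
    _ = (m : MonoidAlgebra (ZMod q) G) * ((m : MonoidAlgebra (ZMod q) G) *
        (Nat.card π.ker : MonoidAlgebra (ZMod q) G)) * X := by
        rw [h4]
        simp only [mul_assoc]
    _ = (m : MonoidAlgebra (ZMod q) G) * X := by rw [h1', mul_one]

theorem secA_idm_map {C D : Type} [Group C] [Group D] (j : C →* D) (q : ℕ)
    (u : MonoidAlgebra ℤ C) (hu : Idm q u) : Idm q (MonoidAlgebra.mapDomainRingHom ℤ j u) := by
  have h1 : ∀ u : MonoidAlgebra ℤ C,
      MonoidAlgebra.mapRingHom D (Int.castRingHom (ZMod q)) (MonoidAlgebra.mapDomainRingHom ℤ j u)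
        = MonoidAlgebra.mapDomainRingHom (ZMod q) j
          (MonoidAlgebra.mapRingHom C (Int.castRingHom (ZMod q)) u) := by
    intro u
    induction u using MonoidAlgebra.induction_linear with
    | zero => simp only [map_zero]
    | add a b ha hb => simp only [map_add, ha, hb]
    | single g n =>
      rw [MonoidAlgebra.mapRingHom_single]
      simp only [MonoidAlgebra.mapDomainRingHom_apply, MonoidAlgebra.mapDomain_single,
        MonoidAlgebra.mapRingHom_single]
  unfold Idm
  rw [h1]
  exact IsIdempotentElem.map hu _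

theorem idm_io {C : Type} [CommGroup C] (j : C →* Q) (q : ℕ) (u : MonoidAlgebra ℤ C)
    (hu : Idm q u) : Idm q (io j u) := secA_idm_map j q u hu

theorem idm_tw {C : Type} [CommGroup C] (a : ℕ) (q : ℕ) (u : MonoidAlgebra ℤ C)
    (hu : Idm q u) : Idm q (tw C a u) := by
  unfold tw
  exact secA_idm_map (powMonoidHom a : C →* C) q u hu

end Pool.Agent.Lib.MP_0e6cae_nt.OM5
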