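import Pool.Agent.Lib.MP_0e6cae_nt.OM5.SecA

/-!
Sums of class functions over the fibres of `π`.
-/

namespace Pool.Agent.Lib.MP_0e6cae_nt.OM5

open SW DH

variable {N Q G : Type} [Group N] [Group Q] [Group G]

/-- The numbers of elements of `N` over `j z` and over `j (z^a)` in the conjugacy classes of `G`
are the same: `Ind_N^G` of the characters of `j(C)` inflated to `N` are rational valued. -/
def Rat (π : N →* Q) (f : N →* G) {C : Type} [CommGroup C] (j : C →* Q) : Prop :=
  ∀ a : ℕ, a.Coprime (Nat.card C) → ∀ (z : C) (g : G),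
    Nat.card {n : N // π n = j z ∧ IsConj (f n) g} =
      Nat.card {n : N // π n = j (z ^ a) ∧ IsConj (f n) g}

/-- Sums of class functions over the fibres. -/
theorem rat_sum [Fintype N] [Finite G] (π : N →* Q) (f : N →* G) {C : Type} [CommGroup C]
    (j : C →* Q) (hR : Rat π f j) (a : ℕ) (ha : a.Coprime (Nat.card C)) (z : C) {R : Type}
    [CommRing R] (T : G → R) (hT : ∀ g h : G, T (h * g * h⁻¹) = T g)
    [DecidablePred fun n : N => π n = j z] [DecidablePred fun n : N => π n = j (z ^ a)] :
    ∑ n : N, (if π n = j z then T (f n) else 0) =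
      ∑ n : N, (if π n = j (z ^ a) then T (f n) else 0) := by
  classical
  have : Fintype G := Fintype.ofFinite G
  -- `T` as a function on the conjugacy classes
  let T' : ConjClasses G → R := Quotient.lift T (by
    intro g h hgh
    obtain ⟨c, hc⟩ := isConj_iff.1 hgh
    rw [← hc, hT])
  have hT' : ∀ g : G, T g = T' (ConjClasses.mk g) := fun g => rfl
  have key : ∀ y : C, ∑ n : N, (if π n = j y then T (f n) else 0) =
      ∑ κ : ConjClasses G,
        (((Finset.univ.filter fun n : N => π n = j y ∧ ConjClasses.mk (f n) = κ).card : ℕ) : R) *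
          T' κ := by
    intro y
    rw [← Finset.sum_fiberwise Finset.univ (fun n : N => ConjClasses.mk (f n))]
    refine Finset.sum_congr rfl fun κ _ => ?_
    rw [← Finset.sum_filter, Finset.filter_filter, ← nsmul_eq_mul]
    have h1 : (Finset.univ.filter fun n : N => ConjClasses.mk (f n) = κ ∧ π n = j y) =
        Finset.univ.filter fun n : N => π n = j y ∧ ConjClasses.mk (f n) = κ :=
      Finset.filter_congr fun n _ => and_comm
    rw [h1]
    refine Finset.sum_eq_card_nsmul fun n hn => ?_
    rw [Finset.mem_filter] at hn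
    rw [hT', hn.2.2]
  have e1 : ∑ n : N, @ite _ (π n = j z) (Classical.propDecidable _) (T (f n)) 0 =
      ∑ n : N, @ite _ (π n = j (z ^ a)) (Classical.propDecidable _) (T (f n)) 0 := by
    rw [key z, key (z ^ a)]
    refine Finset.sum_congr rfl fun κ _ => ?_
    obtain ⟨g, rfl⟩ := ConjClasses.exists_rep κ
    have h2 : ∀ y : C, (Finset.univ.filter fun n : N =>
        π n = j y ∧ ConjClasses.mk (f n) = ConjClasses.mk g).card =
          Nat.card {n : N // π n = j y ∧ IsConj (f n) g} := by
      intro y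
      rw [Nat.card_eq_fintype_card, Fintype.card_subtype]
      congr 1
      ext n
      simp only [Finset.mem_filter, Finset.mem_univ, true_and]
      rw [ConjClasses.mk_eq_mk_iff_isConj]
    rw [h2 z, h2 (z ^ a), hR a ha z g]
  refine Eq.trans ?_ (e1.trans ?_)
  · exact Finset.sum_congr rfl fun n _ => by split_ifs <;> rfl
  · exact Finset.sum_congr rfl fun n _ => by split_ifs <;> rfl

/-- (`∑_g sec(io j u)_g T(g) = ∑_n (io j u)(π n) T(f n) = ∑_z u_z ∑_{π n = j z} T(f n)`.) -/
theorem sec_class [Fintype N] [Fintype G] (π : N →* Q) (f : N →* G) {C : Type} [CommGroup C]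
    [Finite C] (j : C →* Q) (hj : Function.Injective j) (hR : Rat π f j) (a : ℕ)
    (ha : a.Coprime (Nat.card C)) (m : ℕ) (u : MonoidAlgebra ℤ C) {R : Type} [CommRing R]
    (T : G → R) (hT : ∀ g h : G, T (h * g * h⁻¹) = T g) :
    ∑ g : G, (((m • sec π f (io j u)).coeff g : ℤ) : R) * T g =
      ∑ g : G, (((m • sec π f (io j (tw C a u))).coeff g : ℤ) : R) * T g := by
  classical
  -- the pairing of an element of `ℤ[G]` with `T`
  let Φ : MonoidAlgebra ℤ G → R := fun w => ∑ g : G, ((w.coeff g : ℤ) : R) * T g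
  have hΦ0 : Φ 0 = 0 := by
    simp only [Φ, MonoidAlgebra.coeff_zero, Finsupp.zero_apply, Int.cast_zero, zero_mul,
      Finset.sum_const_zero]
  have hΦa : ∀ x y : MonoidAlgebra ℤ G, Φ (x + y) = Φ x + Φ y := by
    intro x y
    simp only [Φ, MonoidAlgebra.coeff_add, Finsupp.add_apply, Int.cast_add, add_mul,
      Finset.sum_add_distrib]
  have hΦm : ∀ (m : ℕ) (x : MonoidAlgebra ℤ G), Φ (m • x) = m • Φ x := by
    intro m x
    induction m with
    | zero => rw [zero_smul, zero_smul, hΦ0]
    | succ m ih => rw [succ_nsmul, succ_nsmul, hΦa, ih]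
  have hΦs : ∀ (g : G) (r : ℤ), Φ (MonoidAlgebra.single g r) = (r : R) * T g := by
    intro g r
    simp only [Φ, MonoidAlgebra.coeff_single]
    rw [Finset.sum_eq_single g]
    · rw [Finsupp.single_eq_same]
    · intro h _ hh
      rw [Finsupp.single_eq_of_ne hh, Int.cast_zero, zero_mul]
    · intro h
      exact absurd (Finset.mem_univ g) h
  have hΦsum : ∀ F : N → MonoidAlgebra ℤ G, Φ (∑ n : N, F n) = ∑ n : N, Φ (F n) := by
    intro F
    exact map_sum (AddMonoidHom.mk' Φ hΦa) F Finset.univ
  have hsec : ∀ c : MonoidAlgebra ℤ Q, Φ (sec π f c) = ∑ n : N, ((c.coeff (π n) : ℤ) : R) * T (f n) := by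
    intro c
    unfold sec
    rw [hΦsum]
    exact Finset.sum_congr rfl fun n _ => hΦs _ _
  have hone : ∀ (y : C) (r : ℤ), Φ (sec π f (io j (MonoidAlgebra.single y r))) =
      (r : R) * ∑ n : N, (if π n = j y then T (f n) else 0) := by
    intro y r
    rw [hsec, io_single, Finset.mul_sum]
    refine Finset.sum_congr rfl fun n _ => ?_
    rw [MonoidAlgebra.coeff_single]
    by_cases h : π n = j y
    · rw [h, Finsupp.single_eq_same, if_pos rfl]
    · rw [Finsupp.single_eq_of_ne h, if_neg h, Int.cast_zero, zero_mul, mul_zero]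
  have hmain : Φ (sec π f (io j u)) = Φ (sec π f (io j (tw C a u))) := by
    induction u using MonoidAlgebra.induction_linear with
    | zero => rw [map_zero (tw C a)]
    | add x y hx hy => rw [map_add, map_add, map_add, sec_add, sec_add, hΦa, hΦa, hx, hy]
    | single y r =>
      rw [tw_single, hone, hone, rat_sum π f j hR a ha y T hT]
  change Φ (m • sec π f (io j u)) = Φ (m • sec π f (io j (tw C a u)))
  rw [hΦm, hΦm, hmain]

end Pool.Agent.Lib.MP_0e6cae_nt.OM5
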