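import Pool.Agent.Lib.MP_0e6cae_nt.SW.TrD

/-!
A module killed by `ℓ`, `ℓ ∤ |G|`, is a direct summand of `𝔽_ℓ[G]^s`.
-/

namespace Pool.Agent.Lib.MP_0e6cae_nt.OM5

open SW

theorem trS_aux {R : Type} [CommRing R] {G : Type} [Group G]
    [IsSemisimpleRing (MonoidAlgebra R G)] (V : Type) [AddCommGroup V] [Module R V] [Finite V]
    (ρ : G →* Module.End R V) :
    ∃ (s : ℕ) (e : (Fin s → MonoidAlgebra R G) →ₗ[MonoidAlgebra R G]
      (Fin s → MonoidAlgebra R G)) (j : V ≃+ LinearMap.range e), e ∘ₗ e = e ∧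
      ∀ (g : G) (y : V), ((j (ρ g y) : LinearMap.range e) : Fin s → MonoidAlgebra R G) =
        (MonoidAlgebra.single g (1 : R) : MonoidAlgebra R G) •
          ((j y : LinearMap.range e) : Fin s → MonoidAlgebra R G) := by
  letI : Module (MonoidAlgebra R G) V :=
    Module.compHom V (MonoidAlgebra.lift R (Module.End R V) G ρ).toRingHom
  have hsm : ∀ (g : G) (y : V), (MonoidAlgebra.single g (1 : R) : MonoidAlgebra R G) • y =
      ρ g y := by
    intro g y
    change (MonoidAlgebra.lift R (Module.End R V) G ρ (MonoidAlgebra.single g (1 : R))) y = _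
    rw [MonoidAlgebra.lift_single, one_smul]
  have hfin : Module.Finite (MonoidAlgebra R G) V := Module.Finite.of_finite
  obtain ⟨s, p, hp⟩ := Module.Finite.exists_fin' (MonoidAlgebra R G) V
  have hproj : Module.Projective (MonoidAlgebra R G) V :=
    Module.projective_of_isSemisimpleRing (MonoidAlgebra R G) V
  obtain ⟨σ, hσ⟩ := Module.projective_lifting_property p
    (LinearMap.id : V →ₗ[MonoidAlgebra R G] V) hp
  have hσ' : ∀ y, p (σ y) = y := fun y => LinearMap.congr_fun hσ y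
  have he : ∀ y, (σ ∘ₗ p) (σ y) = σ y := fun y => by rw [LinearMap.comp_apply, hσ']
  refine ⟨s, σ ∘ₗ p,
    { toFun := fun y => ⟨σ y, σ y, he y⟩
      invFun := fun z => p z.1
      left_inv := fun y => hσ' y
      right_inv := fun z => by
        obtain ⟨v, hv⟩ := z.2
        apply Subtype.ext
        change σ (p z.1) = z.1
        rw [← hv, LinearMap.comp_apply, hσ']
      map_add' := fun y z => Subtype.ext (map_add σ y z) }, ?_, fun g y => ?_⟩
  · refine LinearMap.ext fun v => ?_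
    rw [LinearMap.comp_apply, LinearMap.comp_apply, LinearMap.comp_apply, hσ']
  · change σ (ρ g y) = (MonoidAlgebra.single g (1 : R) : MonoidAlgebra R G) • σ y
    rw [← hsm, map_smul]

/-- The action of the group. -/
noncomputable def trS_rho {G : Type} [Group G] (V : Type) [AddCommGroup V]
    [Module (MonoidAlgebra ℤ G) V] (n : ℕ) [Module (ZMod n) V] : G →* Module.End (ZMod n) V where
  toFun := fun g => (AddMonoidHom.toZModLinearMap n
    { toFun := fun y => (MonoidAlgebra.single g (1 : ℤ) : MonoidAlgebra ℤ G) • y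
      map_zero' := smul_zero _
      map_add' := fun y z => smul_add _ y z } : V →ₗ[ZMod n] V)
  map_one' := by
    refine LinearMap.ext fun y => ?_
    change (MonoidAlgebra.single (1 : G) (1 : ℤ) : MonoidAlgebra ℤ G) • y = y
    rw [← MonoidAlgebra.one_def, one_smul]
  map_mul' := fun g h => by
    refine LinearMap.ext fun y => ?_
    change (MonoidAlgebra.single (g * h) (1 : ℤ) : MonoidAlgebra ℤ G) • y =
      (MonoidAlgebra.single g (1 : ℤ) : MonoidAlgebra ℤ G) •
        (MonoidAlgebra.single h (1 : ℤ) : MonoidAlgebra ℤ G) • y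
    rw [← mul_smul, MonoidAlgebra.single_mul_single, one_mul]

/-- (Maschke; `V` is a direct summand of `𝔽_ℓ[G]^s`.) -/
theorem exists_summand (ℓ : ℕ) [Fact ℓ.Prime] {G : Type} [Group G] [Finite G]
    (hℓG : ¬ ℓ ∣ Nat.card G) (V : Type) [AddCommGroup V] [Module (MonoidAlgebra ℤ G) V] [Finite V]
    (hV : ∀ y : V, ℓ • y = 0) :
    ∃ (s : ℕ) (e : (Fin s → MonoidAlgebra (ZMod ℓ) G) →ₗ[MonoidAlgebra (ZMod ℓ) G]
      (Fin s → MonoidAlgebra (ZMod ℓ) G)) (j : V ≃+ LinearMap.range e), e ∘ₗ e = e ∧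
      ∀ (g : G) (y : V), ((j ((MonoidAlgebra.single g (1 : ℤ) : MonoidAlgebra ℤ G) • y) :
        LinearMap.range e) : Fin s → MonoidAlgebra (ZMod ℓ) G) =
        (MonoidAlgebra.single g (1 : ZMod ℓ) : MonoidAlgebra (ZMod ℓ) G) •
          ((j y : LinearMap.range e) : Fin s → MonoidAlgebra (ZMod ℓ) G) := by
  have : NeZero (Nat.card G : ZMod ℓ) := ⟨by rwa [Ne, ZMod.natCast_eq_zero_iff]⟩
  have hss : IsSemisimpleRing (MonoidAlgebra (ZMod ℓ) G) := inferInstance
  let inst : @Module (ZMod ℓ) V (ZMod.commRing ℓ).toCommSemiring.toSemiring _ :=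
    AddCommGroup.zmodModule hV
  exact @trS_aux (ZMod ℓ) (ZMod.commRing ℓ) G _ hss V _ inst _ (@trS_rho G _ V _ _ ℓ inst)

end Pool.Agent.Lib.MP_0e6cae_nt.OM5
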