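import Pool.Agent.Lib.MP_0e6cae_nt.OM5.TwA
import Pool.Agent.Lib.MP_0e6cae_nt.OM5.TrS
import Pool.Agent.Lib.MP_0e6cae_nt.SW.TrF

/-!
The number of elements of the image of an idempotent on a module killed by `ℓ` depends only on the
sums of its coefficients over the conjugacy classes.
-/

namespace Pool.Agent.Lib.MP_0e6cae_nt.OM5

open SW

/-- Left multiplication by an element of the group ring. -/
noncomputable def trL (R : Type) [CommRing R] (G : Type) [Group G] (s : ℕ)
    (w : MonoidAlgebra R G) :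
    (Fin s → MonoidAlgebra R G) →ₗ[R] (Fin s → MonoidAlgebra R G) where
  toFun := fun v => w • v
  map_add' := fun v v' => smul_add _ v v'
  map_smul' := fun r v => smul_comm _ r v

theorem trL_apply (R : Type) [CommRing R] (G : Type) [Group G] (s : ℕ) (w : MonoidAlgebra R G)
    (v : Fin s → MonoidAlgebra R G) : trL R G s w v = w • v := rfl

/-- The trace is linear in the coefficients. -/
theorem trL_trace (R : Type) [CommRing R] (G : Type) [Group G] [Fintype G] (s : ℕ)
    (w : MonoidAlgebra R G) (a : (Fin s → MonoidAlgebra R G) →ₗ[R] (Fin s → MonoidAlgebra R G)) :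
    LinearMap.trace R (Fin s → MonoidAlgebra R G) (trL R G s w ∘ₗ a) =
      ∑ g : G, w.coeff g * LinearMap.trace R (Fin s → MonoidAlgebra R G) (lm R G s g ∘ₗ a) := by
  have h1 : trL R G s w ∘ₗ a = ∑ g : G, w.coeff g • (lm R G s g ∘ₗ a) := by
    refine LinearMap.ext fun v => ?_
    rw [LinearMap.comp_apply, trL_apply, LinearMap.sum_apply]
    have h2 : w = ∑ g : G, MonoidAlgebra.single g (w.coeff g) := by
      ext g
      rw [MonoidAlgebra.coeff_sum, Finset.sum_apply', Finset.sum_eq_single g]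
      · simp
      · intro h _ hh
        classical
        rw [MonoidAlgebra.coeff_single, Finsupp.single_apply, if_neg hh]
      · intro h
        exact absurd (Finset.mem_univ g) h
    conv_lhs => rw [h2]
    rw [Finset.sum_smul]
    refine Finset.sum_congr rfl fun g _ => ?_
    rw [LinearMap.smul_apply, LinearMap.comp_apply, lm_apply]
    have h3 : (MonoidAlgebra.single g (w.coeff g) : MonoidAlgebra R G) =
        w.coeff g • MonoidAlgebra.single g (1 : R) := by
      rw [MonoidAlgebra.smul_single, smul_eq_mul, mul_one]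
    rw [h3, smul_assoc]
  rw [h1, map_sum]
  refine Finset.sum_congr rfl fun g _ => ?_
  rw [map_smul, smul_eq_mul]

/-- The trace of `g e'` is a class function. -/
theorem tr_class (R : Type) [CommRing R] (G : Type) [Group G] [Finite G] (s : ℕ)
    (e' : (Fin s → MonoidAlgebra R G) →ₗ[MonoidAlgebra R G] (Fin s → MonoidAlgebra R G))
    (g h : G) :
    LinearMap.trace R (Fin s → MonoidAlgebra R G)
      (lm R G s (h * g * h⁻¹) ∘ₗ e'.restrictScalars R) =
    LinearMap.trace R (Fin s → MonoidAlgebra R G) (lm R G s g ∘ₗ e'.restrictScalars R) := by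
  have h1 : lm R G s (h * g * h⁻¹) ∘ₗ e'.restrictScalars R =
      lm R G s h ∘ₗ ((lm R G s g ∘ₗ e'.restrictScalars R) ∘ₗ lm R G s h⁻¹) := by
    refine LinearMap.ext fun v => ?_
    change (MonoidAlgebra.single (h * g * h⁻¹) (1 : R) : MonoidAlgebra R G) • e' v =
      (MonoidAlgebra.single h (1 : R) : MonoidAlgebra R G) •
        ((MonoidAlgebra.single g (1 : R) : MonoidAlgebra R G) •
          e' ((MonoidAlgebra.single h⁻¹ (1 : R) : MonoidAlgebra R G) • v))
    rw [map_smul, smul_smul, smul_smul, MonoidAlgebra.single_mul_single,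
      MonoidAlgebra.single_mul_single, one_mul, one_mul]
  rw [h1, LinearMap.trace_comp_comm']
  congr 1
  refine LinearMap.ext fun v => ?_
  change (MonoidAlgebra.single g (1 : R) : MonoidAlgebra R G) •
      e' ((MonoidAlgebra.single h⁻¹ (1 : R) : MonoidAlgebra R G) •
        ((MonoidAlgebra.single h (1 : R) : MonoidAlgebra R G) • v)) =
    (MonoidAlgebra.single g (1 : R) : MonoidAlgebra R G) • e' v
  rw [smul_smul, MonoidAlgebra.single_mul_single, one_mul, inv_mul_cancel,
    ← MonoidAlgebra.one_def, one_smul]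

/-- The trace of `u e'` for `u` idempotent modulo `ℓ^k`, and the number of elements of `u V`. -/
theorem tr_card (ℓ : ℕ) [Fact ℓ.Prime] {G : Type} [Group G] [Fintype G]
    (V : Type) [AddCommGroup V] [Module (MonoidAlgebra ℤ G) V] (k : ℕ) (hk : k ≠ 0)
    (s : ℕ) (e : (Fin s → MonoidAlgebra (ZMod ℓ) G) →ₗ[MonoidAlgebra (ZMod ℓ) G]
      (Fin s → MonoidAlgebra (ZMod ℓ) G)) (j : V ≃+ LinearMap.range e)
    (hj : ∀ (g : G) (y : V), ((j ((MonoidAlgebra.single g (1 : ℤ) : MonoidAlgebra ℤ G) • y) :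
        LinearMap.range e) : Fin s → MonoidAlgebra (ZMod ℓ) G) =
        (MonoidAlgebra.single g (1 : ZMod ℓ) : MonoidAlgebra (ZMod ℓ) G) •
          ((j y : LinearMap.range e) : Fin s → MonoidAlgebra (ZMod ℓ) G))
    (e' : (Fin s → MonoidAlgebra (ZMod (ℓ ^ k)) G) →ₗ[MonoidAlgebra (ZMod (ℓ ^ k)) G]
      (Fin s → MonoidAlgebra (ZMod (ℓ ^ k)) G)) (he' : e' ∘ₗ e' = e')
    (hred : ∀ v, red (cst ℓ k hk) G s (e' v) = e (red (cst ℓ k hk) G s v))
    (u : MonoidAlgebra ℤ G) (hu : Idm (ℓ ^ k) u) :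
    ∃ d : ℕ, Nat.card (Set.range fun y : V => u • y) = ℓ ^ d ∧
      ((d : ℕ) : ZMod (ℓ ^ k)) = ∑ g : G, ((u.coeff g : ℤ) : ZMod (ℓ ^ k)) *
        LinearMap.trace (ZMod (ℓ ^ k)) (Fin s → MonoidAlgebra (ZMod (ℓ ^ k)) G)
          (lm (ZMod (ℓ ^ k)) G s g ∘ₗ e'.restrictScalars (ZMod (ℓ ^ k))) := by
  set R := ZMod (ℓ ^ k) with hR
  set uR : MonoidAlgebra R G := MonoidAlgebra.mapRingHom G (Int.castRingHom R) u with huR
  set u0 : MonoidAlgebra (ZMod ℓ) G :=
    MonoidAlgebra.mapRingHom G (Int.castRingHom (ZMod ℓ)) u with hu0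
  have huR0 : MonoidAlgebra.mapRingHom G (cst ℓ k hk) uR = u0 := by
    ext g
    rw [MonoidAlgebra.coeff_mapRingHom, MonoidAlgebra.coeff_mapRingHom,
      MonoidAlgebra.coeff_mapRingHom]
    simp
  have hidem : uR * uR = uR := hu
  have hpi := red_surjective ℓ k hk G s
  have hker := red_eq_zero ℓ k hk G s
  have hlin : ∀ (r : R) (v : Fin s → MonoidAlgebra R G),
      red (cst ℓ k hk) G s (r • v) = cst ℓ k hk r • red (cst ℓ k hk) G s v := by
    intro r v
    funext i
    rw [red_apply, Pi.smul_apply, Pi.smul_apply, red_apply, TrF_map_smul]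
  have hI : (trL R G s uR ∘ₗ e'.restrictScalars R) ∘ₗ (trL R G s uR ∘ₗ e'.restrictScalars R) =
      trL R G s uR ∘ₗ e'.restrictScalars R := by
    refine LinearMap.ext fun v => ?_
    change uR • e' (uR • e' v) = uR • e' v
    rw [map_smul, smul_smul, hidem]
    congr 1
    exact LinearMap.congr_fun he' v
  have hee : ∀ v, red (cst ℓ k hk) G s ((trL R G s uR ∘ₗ e'.restrictScalars R) v) =
      (trL (ZMod ℓ) G s u0 ∘ₗ e.restrictScalars (ZMod ℓ)) (red (cst ℓ k hk) G s v) := by
    intro v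
    change red (cst ℓ k hk) G s (uR • e' v) = u0 • e (red (cst ℓ k hk) G s v)
    rw [TrF_red, huR0, hred]
  have h4 := trace_idem ℓ k hk (Fin s → MonoidAlgebra R G)
      (Fin s → MonoidAlgebra (ZMod ℓ) G) (red (cst ℓ k hk) G s) hpi hker hlin
      (trL R G s uR ∘ₗ e'.restrictScalars R) hI
      (trL (ZMod ℓ) G s u0 ∘ₗ e.restrictScalars (ZMod ℓ)) hee
  refine ⟨Module.finrank (ZMod ℓ) (LinearMap.range
    (trL (ZMod ℓ) G s u0 ∘ₗ e.restrictScalars (ZMod ℓ))), ?_, ?_⟩
  · -- the action of `u`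
    have hju : ∀ (r : MonoidAlgebra ℤ G) (y : V), ((j (r • y) : LinearMap.range e) :
        Fin s → MonoidAlgebra (ZMod ℓ) G) =
        MonoidAlgebra.mapRingHom G (Int.castRingHom (ZMod ℓ)) r •
          ((j y : LinearMap.range e) : Fin s → MonoidAlgebra (ZMod ℓ) G) := by
      intro r y
      induction r using MonoidAlgebra.induction_linear with
      | zero => rw [zero_smul, map_zero, map_zero, zero_smul]; rfl
      | add a b ha hb =>
        rw [add_smul, map_add, map_add, add_smul, ← ha, ← hb]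
        rfl
      | single g c =>
        have h5 : (MonoidAlgebra.single g c : MonoidAlgebra ℤ G) =
            c • MonoidAlgebra.single g (1 : ℤ) := by
          rw [MonoidAlgebra.smul_single, smul_eq_mul, mul_one]
        have h6 : (MonoidAlgebra.single g (Int.castRingHom (ZMod ℓ) c) :
            MonoidAlgebra (ZMod ℓ) G) = c • MonoidAlgebra.single g (1 : ZMod ℓ) := by
          rw [MonoidAlgebra.smul_single]
          simp
        rw [MonoidAlgebra.mapRingHom_single, h6, h5, smul_assoc, map_zsmul, smul_assoc, ← hj]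
        rfl
    have h7 : ((LinearMap.range (trL (ZMod ℓ) G s u0 ∘ₗ e.restrictScalars (ZMod ℓ)) :
        Submodule (ZMod ℓ) (Fin s → MonoidAlgebra (ZMod ℓ) G)) :
        Set (Fin s → MonoidAlgebra (ZMod ℓ) G)) =
        (fun y : V => ((j y : LinearMap.range e) : Fin s → MonoidAlgebra (ZMod ℓ) G)) ''
          (Set.range fun y : V => u • y) := by
      ext z
      constructor
      · rintro ⟨v, rfl⟩
        refine ⟨u • j.symm ⟨e v, v, rfl⟩, ⟨_, rfl⟩, ?_⟩
        change ((j (u • j.symm ⟨e v, v, rfl⟩) : LinearMap.range e) :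
          Fin s → MonoidAlgebra (ZMod ℓ) G) = u0 • e v
        rw [hju, AddEquiv.apply_symm_apply]
      · rintro ⟨_, ⟨y, rfl⟩, rfl⟩
        obtain ⟨v, hv⟩ := (j y).2
        refine ⟨v, ?_⟩
        change u0 • e v = ((j (u • y) : LinearMap.range e) :
          Fin s → MonoidAlgebra (ZMod ℓ) G)
        rw [hju, hv]
    have h8 : Function.Injective
        (fun y : V => ((j y : LinearMap.range e) : Fin s → MonoidAlgebra (ZMod ℓ) G)) :=
      fun y z hyz => j.injective (Subtype.ext hyz)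
    have h9 := Nat.card_image_of_injective h8 (Set.range fun y : V => u • y)
    rw [← h7] at h9
    rw [← h9]
    have h10 := Module.natCard_eq_pow_finrank (K := ZMod ℓ)
      (V := LinearMap.range (trL (ZMod ℓ) G s u0 ∘ₗ e.restrictScalars (ZMod ℓ)))
    rw [Nat.card_zmod] at h10
    exact h10
  · rw [← h4, trL_trace]
    refine Finset.sum_congr rfl fun g _ => ?_
    rw [huR, MonoidAlgebra.coeff_mapRingHom]
    rfl

/-- (`e` of `exists_summand`, lifted to an idempotent `e'` over `ℤ/ℓ^k` by `exists_lift_idem`;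
`T(g) = tr(g e')` is a class function; `u` acts as an idempotent `U` which commutes with `e'`;
`tr(U e') = ∑ u_g T(g)` is the dimension of the image of `U e`, i.e. of `u V` (`trace_idem`), and
the dimensions are smaller than `ℓ^k`.) -/
theorem card_range_eq (ℓ : ℕ) (hℓ : ℓ.Prime) {G : Type} [Group G] [Fintype G]
    (hℓG : ¬ ℓ ∣ Nat.card G) (V : Type) [AddCommGroup V] [Module (MonoidAlgebra ℤ G) V] [Finite V]
    (hV : ∀ y : V, ℓ • y = 0) (k : ℕ) (hk : k ≠ 0) (hkV : Nat.card V < ℓ ^ k)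
    (u u' : MonoidAlgebra ℤ G) (hu : Idm (ℓ ^ k) u) (hu' : Idm (ℓ ^ k) u')
    (hT : ∀ T : G → ZMod (ℓ ^ k), (∀ g h : G, T (h * g * h⁻¹) = T g) →
      ∑ g : G, ((u.coeff g : ℤ) : ZMod (ℓ ^ k)) * T g =
        ∑ g : G, ((u'.coeff g : ℤ) : ZMod (ℓ ^ k)) * T g) :
    Nat.card (Set.range fun y : V => u • y) = Nat.card (Set.range fun y : V => u' • y) := by
  have : Fact ℓ.Prime := ⟨hℓ⟩
  obtain ⟨s, e, j, he, hj⟩ := exists_summand ℓ hℓG V hV
  obtain ⟨e', he', hred⟩ := exists_lift_idem ℓ k hk e he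
  obtain ⟨d, h1, h2⟩ := tr_card ℓ V k hk s e j hj e' he' hred u hu
  obtain ⟨d', h1', h2'⟩ := tr_card ℓ V k hk s e j hj e' he' hred u' hu'
  have h3 := hT (fun g => LinearMap.trace (ZMod (ℓ ^ k))
    (Fin s → MonoidAlgebra (ZMod (ℓ ^ k)) G)
    (lm (ZMod (ℓ ^ k)) G s g ∘ₗ e'.restrictScalars (ZMod (ℓ ^ k))))
    (fun g h => tr_class (ZMod (ℓ ^ k)) G s e' g h)
  rw [← h2, ← h2'] at h3
  have hle : ∀ w : MonoidAlgebra ℤ G, Nat.card (Set.range fun y : V => w • y) < ℓ ^ k := by
    intro w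
    refine lt_of_le_of_lt ?_ hkV
    exact Nat.card_le_card_of_injective _ Subtype.val_injective
  have hd : d < ℓ ^ k := (Nat.lt_pow_self hℓ.one_lt).trans (h1 ▸ hle u)
  have hd' : d' < ℓ ^ k := (Nat.lt_pow_self hℓ.one_lt).trans (h1' ▸ hle u')
  have h4 : d = d' := by
    have h5 := (ZMod.natCast_eq_natCast_iff d d' (ℓ ^ k)).1 h3
    exact Nat.ModEq.eq_of_lt_of_lt h5 hd hd'
  rw [h1, h1', h4]

end Pool.Agent.Lib.MP_0e6cae_nt.OM5
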