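import Pool.Agent.Lib.MP_0e6cae_nt.SW.TrD
import Pool.Agent.Lib.MP_0e6cae_nt.KF.FreeB

/-!
A module over the group ring of a cyclic group is isomorphic to its twist if the images of the
idempotents have the same orders.
-/

namespace Pool.Agent.Lib.MP_0e6cae_nt.OM5

open SW KF

/-- The element `u` is idempotent modulo `m`. -/
def Idm (m : ℕ) {G : Type} [Group G] (u : MonoidAlgebra ℤ G) : Prop :=
  IsIdempotentElem (MonoidAlgebra.mapRingHom G (Int.castRingHom (ZMod m)) u)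

/-- The twist `z ↦ z^a` of the group ring of an abelian group. -/
noncomputable def tw (C : Type) [CommGroup C] (a : ℕ) : MonoidAlgebra ℤ C →+* MonoidAlgebra ℤ C :=
  MonoidAlgebra.mapDomainRingHom ℤ (powMonoidHom a : C →* C)

theorem tw_single {C : Type} [CommGroup C] (a : ℕ) (z : C) (n : ℤ) :
    tw C a (MonoidAlgebra.single z n) = MonoidAlgebra.single (z ^ a) n := by
  simp [tw]

theorem twa_surj {R S : Type} [CommRing R] [CommRing S] (f : R →+* S)
    (hf : Function.Surjective f) (C : Type) [CommGroup C] :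
    Function.Surjective (MonoidAlgebra.mapRingHom C f) := by
  intro y
  induction y using MonoidAlgebra.induction_linear with
  | zero => exact ⟨0, map_zero _⟩
  | add a b ha hb =>
    obtain ⟨a', rfl⟩ := ha
    obtain ⟨b', rfl⟩ := hb
    exact ⟨a' + b', map_add _ _ _⟩
  | single g r =>
    obtain ⟨r', rfl⟩ := hf r
    exact ⟨MonoidAlgebra.single g r', by simp⟩

theorem twa_ker (ℓ : ℕ) (C : Type) [CommGroup C] (y : MonoidAlgebra ℤ C)
    (hy : MonoidAlgebra.mapRingHom C (Int.castRingHom (ZMod ℓ)) y = 0) : ∃ y', y = ℓ • y' := by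
  refine ⟨MonoidAlgebra.ofCoeff (Finsupp.mapRange (fun c : ℤ => c / ℓ) (by simp) y.coeff), ?_⟩
  ext g
  have h1 : Int.castRingHom (ZMod ℓ) (y.coeff g) = 0 := by
    rw [← MonoidAlgebra.coeff_mapRingHom, hy]
    rfl
  rw [MonoidAlgebra.coeff_smul, Finsupp.smul_apply]
  have h2 : (ℓ : ℤ) ∣ y.coeff g := (ZMod.intCast_zmod_eq_zero_iff_dvd _ _).1 h1
  show y.coeff g = ℓ • (y.coeff g / ℓ)
  rw [nsmul_eq_mul, Int.mul_ediv_cancel' h2]

/-- Idempotents modulo `ℓ` lift to idempotents modulo `ℓ^k`. (`exists_lift_idem` for `s = 1`, or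
directly `exists_isIdempotentElem_eq_of_ker_isNilpotent`.) -/
theorem exists_idm (ℓ : ℕ) [Fact ℓ.Prime] (k : ℕ) (hk : k ≠ 0) {C : Type} [CommGroup C] [Finite C]
    (v : MonoidAlgebra (ZMod ℓ) C) (hv : IsIdempotentElem v) :
    ∃ u : MonoidAlgebra ℤ C, Idm (ℓ ^ k) u ∧
      MonoidAlgebra.mapRingHom C (Int.castRingHom (ZMod ℓ)) u = v := by
  have hcomp : ∀ y : MonoidAlgebra ℤ C, MonoidAlgebra.mapRingHom C (cst ℓ k hk)
      (MonoidAlgebra.mapRingHom C (Int.castRingHom (ZMod (ℓ ^ k))) y) =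
      MonoidAlgebra.mapRingHom C (Int.castRingHom (ZMod ℓ)) y := by
    intro y
    ext g
    rw [MonoidAlgebra.coeff_mapRingHom, MonoidAlgebra.coeff_mapRingHom,
      MonoidAlgebra.coeff_mapRingHom]
    exact map_intCast (cst ℓ k hk) _
  have hker : ∀ y ∈ RingHom.ker (MonoidAlgebra.mapRingHom C (cst ℓ k hk)), IsNilpotent y := by
    intro y hy
    obtain ⟨z, rfl⟩ := twa_surj (Int.castRingHom (ZMod (ℓ ^ k)))
      (ZMod.ringHom_surjective _) C y
    have h1 := RingHom.mem_ker.1 hy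
    rw [hcomp] at h1
    obtain ⟨z', rfl⟩ := twa_ker ℓ C z h1
    refine ⟨k, ?_⟩
    rw [map_nsmul, smul_pow]
    ext g
    rw [MonoidAlgebra.coeff_smul, Finsupp.smul_apply, nsmul_eq_mul, ZMod.natCast_self, zero_mul]
    rfl
  obtain ⟨v', hv'1, hv'2⟩ := exists_isIdempotentElem_eq_of_ker_isNilpotent
    (MonoidAlgebra.mapRingHom C (cst ℓ k hk)) hker v
    (RingHom.mem_range.2 (twa_surj _ (cst_surjective ℓ k hk) C v)) hv
  obtain ⟨u, hu⟩ := twa_surj (Int.castRingHom (ZMod (ℓ ^ k))) (ZMod.ringHom_surjective _) C v'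
  refine ⟨u, ?_, ?_⟩
  · unfold Idm
    rw [hu]
    exact hv'1
  · rw [← hcomp, hu, hv'2]

/-- (`S ≅ 𝔽_ℓ[C]/I`, `I` generated by `1 - v`, `v` idempotent; take `u` over `v` with
`exists_idm`; `Hom(W, S) = Hom(uW, S)` and `uW` is a vector space over the field
`𝔽_ℓ[C]/I ≅ S`.) -/
theorem exists_idm_simple {C : Type} [CommGroup C] [Finite C] (ℓ : ℕ) (hℓ : ℓ.Prime)
    (hℓC : ¬ ℓ ∣ Nat.card C) (k : ℕ) (hk : k ≠ 0) (S : Type) [AddCommGroup S]
    [Module (MonoidAlgebra ℤ C) S] [Finite S] (hS : IsSimpleModule (MonoidAlgebra ℤ C) S)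
    (hSℓ : ∀ y : S, ℓ • y = 0) :
    ∃ u : MonoidAlgebra ℤ C, Idm (ℓ ^ k) u ∧ ∀ (W : Type) [AddCommGroup W]
      [Module (MonoidAlgebra ℤ C) W] [Finite W], (∀ y : W, ℓ • y = 0) →
        Nat.card (W →ₗ[MonoidAlgebra ℤ C] S) = Nat.card (Set.range fun y : W => u • y) := by
  haveI : Fact ℓ.Prime := ⟨hℓ⟩
  obtain ⟨I, hI, ⟨e⟩⟩ := isSimpleModule_iff_quot_maximal.1 hS
  letI : Field (MonoidAlgebra ℤ C ⧸ I) := Ideal.Quotient.field I
  haveI hfin : Finite (MonoidAlgebra ℤ C ⧸ I) := Finite.of_equiv S e.toEquiv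
  -- the elements of the ideal kill `S`
  have hIS : ∀ r ∈ I, ∀ y : S, r • y = 0 := by
    intro r hr y
    apply e.injective
    rw [map_smul, map_zero]
    obtain ⟨z, hz⟩ := Ideal.Quotient.mk_surjective (e y)
    rw [← hz, ← Ideal.Quotient.mk_eq_mk, ← Submodule.Quotient.mk_smul, Submodule.Quotient.mk_eq_zero]
    exact I.mul_mem_right _ hr
  have hℓI : ∀ r : MonoidAlgebra ℤ C, ℓ • r ∈ I := by
    intro r
    have h1 : (ℓ • (1 : MonoidAlgebra ℤ C)) ∈ I := by
      have h2 : ℓ • e.symm (Submodule.Quotient.mk (1 : MonoidAlgebra ℤ C)) = 0 := hSℓ _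
      have h3 := congrArg e h2
      rw [map_nsmul, LinearEquiv.apply_symm_apply, map_zero, ← Submodule.Quotient.mk_smul,
        Submodule.Quotient.mk_eq_zero] at h3
      exact h3
    have h4 : ℓ • r = (ℓ • (1 : MonoidAlgebra ℤ C)) * r := by
      rw [smul_mul_assoc, one_mul]
    rw [h4]
    exact I.mul_mem_right _ h1
  let ρ : MonoidAlgebra ℤ C →+* MonoidAlgebra (ZMod ℓ) C :=
    MonoidAlgebra.mapRingHom C (Int.castRingHom (ZMod ℓ))
  have hρ : Function.Surjective ρ := twa_surj _ (ZMod.ringHom_surjective _) C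
  haveI : NeZero (Nat.card C : ZMod ℓ) := ⟨fun h => hℓC ((ZMod.natCast_eq_zero_iff _ _).1 h)⟩
  obtain ⟨w, hw, hIw⟩ := IsSemisimpleRing.ideal_eq_span_idempotent (I.map ρ)
  obtain ⟨u, hu, huv⟩ := exists_idm ℓ k hk (1 - w) hw.one_sub
  have huv' : ρ u = 1 - w := huv
  refine ⟨u, hu, ?_⟩
  have h1u : 1 - u ∈ I := by
    have h1 : w ∈ I.map ρ := by
      rw [hIw]
      exact Ideal.subset_span rfl
    obtain ⟨x, hx, hxw⟩ := (Ideal.mem_map_iff_of_surjective ρ hρ).1 h1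
    have h2 : ρ (1 - u - x) = 0 := by
      rw [map_sub, map_sub, map_one, huv', hxw]
      ring
    obtain ⟨z, hz⟩ := twa_ker ℓ C _ h2
    have h3 : 1 - u = ℓ • z + x := by
      rw [← hz]
      ring
    rw [h3]
    exact I.add_mem (hℓI z) hx
  have hIu : ∀ x ∈ I, ∃ z, x * u = ℓ • z := by
    intro x hx
    apply twa_ker ℓ C
    have h1 : ρ x ∈ I.map ρ := Ideal.mem_map_of_mem ρ hx
    rw [hIw] at h1
    obtain ⟨a, ha⟩ := Ideal.mem_span_singleton'.1 h1
    show ρ (x * u) = 0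
    rw [map_mul, huv', ← ha]
    have h2 : w * w = w := hw
    linear_combination (-a) * h2
  intro W _ _ _ hW
  have huu : ∀ y : W, u • u • y = u • y := by
    intro y
    obtain ⟨z, hz⟩ := hIu (1 - u) h1u
    have h1 : ((1 - u) * u) • y = 0 := by
      rw [hz, smul_assoc]
      exact hW _
    rw [mul_smul, sub_smul, one_smul, sub_eq_zero] at h1
    exact h1.symm
  have huS : ∀ y : S, u • y = y := by
    intro y
    have h1 := hIS (1 - u) h1u y
    rw [sub_smul, one_smul, sub_eq_zero] at h1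
    exact h1.symm
  let L : W →ₗ[MonoidAlgebra ℤ C] W := LinearMap.lsmul (MonoidAlgebra ℤ C) W u
  have hL : ∀ y, L y = u • y := fun y => rfl
  let V : Submodule (MonoidAlgebra ℤ C) W := LinearMap.range L
  have hV : ∀ y : V, u • (y : W) = y := by
    rintro ⟨_, y, rfl⟩
    show u • L y = L y
    rw [hL, huu]
  -- homomorphisms factor through `uW`
  have hcard1 : Nat.card (W →ₗ[MonoidAlgebra ℤ C] S) = Nat.card (V →ₗ[MonoidAlgebra ℤ C] S) := by
    refine Nat.card_congr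
      { toFun := fun f => f ∘ₗ V.subtype
        invFun := fun g => g ∘ₗ L.rangeRestrict
        left_inv := fun f => ?_
        right_inv := fun g => ?_ }
    · apply LinearMap.ext
      intro y
      show f (u • y) = f y
      rw [map_smul, huS]
    · apply LinearMap.ext
      intro y
      show g (L.rangeRestrict (y : W)) = g y
      congr 1
      exact Subtype.ext (hV y)
  -- `uW` is a vector space
  have hT : Module.IsTorsionBySet (MonoidAlgebra ℤ C) V (I : Set (MonoidAlgebra ℤ C)) := by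
    rintro y ⟨x, hx⟩
    apply Subtype.ext
    show x • (y : W) = 0
    obtain ⟨z, hz⟩ := hIu x hx
    rw [← hV y, ← mul_smul, hz, smul_assoc]
    exact hW _
  letI : Module (MonoidAlgebra ℤ C ⧸ I) V := hT.module
  haveI : IsScalarTower (MonoidAlgebra ℤ C) (MonoidAlgebra ℤ C ⧸ I) V := hT.isScalarTower
  have hcard2 : Nat.card (V →ₗ[MonoidAlgebra ℤ C] S) =
      Nat.card (V →ₗ[MonoidAlgebra ℤ C ⧸ I] (MonoidAlgebra ℤ C ⧸ I)) := by
    rw [Nat.card_congr (e.congrRight : (V →ₗ[MonoidAlgebra ℤ C] S) ≃ₗ[MonoidAlgebra ℤ C]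
      (V →ₗ[MonoidAlgebra ℤ C] (MonoidAlgebra ℤ C ⧸ I))).toEquiv]
    exact Nat.card_congr (LinearMap.extendScalarsOfSurjectiveEquiv
      (R := MonoidAlgebra ℤ C) (S := MonoidAlgebra ℤ C ⧸ I) (M := V)
      (N := MonoidAlgebra ℤ C ⧸ I) Ideal.Quotient.mk_surjective).toEquiv
  haveI : Finite V := inferInstance
  have hcard3 : Nat.card (V →ₗ[MonoidAlgebra ℤ C ⧸ I] (MonoidAlgebra ℤ C ⧸ I)) = Nat.card V := by
    have h1 : Nat.card (Module.Dual (MonoidAlgebra ℤ C ⧸ I) V) =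
        Nat.card (MonoidAlgebra ℤ C ⧸ I) ^
          Module.finrank (MonoidAlgebra ℤ C ⧸ I) (Module.Dual (MonoidAlgebra ℤ C ⧸ I) V) :=
      Module.natCard_eq_pow_finrank
    have h2 : Nat.card V = Nat.card (MonoidAlgebra ℤ C ⧸ I) ^
        Module.finrank (MonoidAlgebra ℤ C ⧸ I) V := Module.natCard_eq_pow_finrank
    rw [h2, ← Subspace.dual_finrank_eq, ← h1]
  rw [hcard1, hcard2, hcard3]
  rfl

end Pool.Agent.Lib.MP_0e6cae_nt.OM5
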