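import Pool.Agent.Lib.MP_0e6cae_nt.OM5.Iso
import Pool.Agent.Lib.MP_0e6cae_nt.OM5.TwA
import Pool.Agent.Lib.MP_0e6cae_nt.DH.Free

/-!
A module over the group ring of a cyclic group is isomorphic to its twist if the images of the
idempotents have the same orders.
-/

namespace Pool.Agent.Lib.MP_0e6cae_nt.OM5

open SW KF

/-- A homomorphism from a module killed by `ℓ` to a simple module not killed by `ℓ` is zero. -/
theorem tw_hom_zero {A : Type} [Ring A] (ℓ : ℕ) (W S : Type) [AddCommGroup W] [Module A W]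
    [AddCommGroup S] [Module A S] (hS : IsSimpleModule A S) (hW : ∀ y : W, ℓ • y = 0)
    (hSℓ : ¬ ∀ y : S, ℓ • y = 0) : Nat.card (W →ₗ[A] S) = 1 := by
  have hz : ∀ φ : W →ₗ[A] S, φ = 0 := by
    intro φ
    let T : Submodule A S :=
      { carrier := {y | ℓ • y = 0}
        add_mem' := by
          intro a b ha hb
          have ha' : ℓ • a = 0 := ha
          have hb' : ℓ • b = 0 := hb
          show ℓ • (a + b) = 0
          rw [smul_add, ha', hb', add_zero]
        zero_mem' := smul_zero _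
        smul_mem' := by
          intro c a ha
          have ha' : ℓ • a = 0 := ha
          show ℓ • (c • a) = 0
          rw [smul_comm, ha', smul_zero] }
    have hT : T = ⊥ := by
      rcases eq_bot_or_eq_top T with h | h
      · exact h
      · exfalso
        apply hSℓ
        intro y
        have h1 : y ∈ T := h ▸ Submodule.mem_top
        exact h1
    ext y
    have h1 : φ y ∈ T := by
      show ℓ • φ y = 0
      rw [← map_nsmul, hW, map_zero]
    rw [hT, Submodule.mem_bot] at h1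
    rw [h1, LinearMap.zero_apply]
  have : Unique (W →ₗ[A] S) := ⟨⟨0⟩, hz⟩
  exact Nat.card_unique

/-- (The twist `W' = ResF (powMonoidHom a) W` is isomorphic to `W` by `iso_of_card` and
`exists_idm_simple`; modules killed by `ℓ` are semisimple, cf. `KF.kil_semisimple`.) -/
theorem aut_of_card {C : Type} [CommGroup C] [Finite C] (x : C) (ℓ : ℕ) (hℓ : ℓ.Prime)
    (hℓC : ¬ ℓ ∣ Nat.card C) (k : ℕ) (hk : k ≠ 0) (W : Type) [AddCommGroup W]
    [Module (MonoidAlgebra ℤ C) W] [Finite W] (hW : ∀ y : W, ℓ • y = 0)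
    (h : ∀ a : ℕ, a.Coprime (Nat.card C) → ∀ u : MonoidAlgebra ℤ C, Idm (ℓ ^ k) u →
      Nat.card (Set.range fun y : W => u • y) =
        Nat.card (Set.range fun y : W => tw C a u • y)) : Aut x W := by
  intro a ha
  set f : C →* C := powMonoidHom a with hf
  have hW' : ∀ y : ResF f W, ℓ • y = 0 := hW
  have hfin : Finite (ResF f W) := (inferInstance : Finite W)
  have hss : IsSemisimpleModule (MonoidAlgebra ℤ C) W := DH.semisimple_of_kill ℓ hℓ hℓC W hW
  have hss' : IsSemisimpleModule (MonoidAlgebra ℤ C) (ResF f W) :=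
    DH.semisimple_of_kill ℓ hℓ hℓC (ResF f W) hW'
  obtain ⟨e⟩ := iso_of_card (A := MonoidAlgebra ℤ C) W (ResF f W) (by
    intro S _ _ _ hS
    by_cases hSℓ : ∀ y : S, ℓ • y = 0
    · obtain ⟨u, hu, hcard⟩ := exists_idm_simple ℓ hℓ hℓC k hk S hS hSℓ
      rw [hcard W hW, hcard (ResF f W) hW']
      exact h a ha u hu
    · rw [tw_hom_zero ℓ W S hS hW hSℓ, tw_hom_zero ℓ (ResF f W) S hS hW' hSℓ])
  refine ⟨e.toAddEquiv.trans (ResF.of f W).symm, fun y => ?_⟩
  have h1 : e ((MonoidAlgebra.single x (1 : ℤ) : MonoidAlgebra ℤ C) • y) =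
      (MonoidAlgebra.single x (1 : ℤ) : MonoidAlgebra ℤ C) • e y := e.map_smul _ _
  have h2 : (MonoidAlgebra.single x (1 : ℤ) : MonoidAlgebra ℤ C) •
      ResF.of f W ((ResF.of f W).symm (e y)) = ResF.of f W
        ((MonoidAlgebra.single (f x) (1 : ℤ) : MonoidAlgebra ℤ C) •
          (ResF.of f W).symm (e y)) := ResF.single_smul f W x 1 _
  rw [AddEquiv.apply_symm_apply] at h2
  show (ResF.of f W).symm (e ((MonoidAlgebra.single x (1 : ℤ) : MonoidAlgebra ℤ C) • y)) =
    (MonoidAlgebra.single x (1 : ℤ) : MonoidAlgebra ℤ C) ^ a • (ResF.of f W).symm (e y)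
  rw [h1, h2, AddEquiv.symm_apply_apply, MonoidAlgebra.single_pow, one_pow]
  rfl

end Pool.Agent.Lib.MP_0e6cae_nt.OM5
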