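import Pool.Agent.Lib.MP_0e6cae_nt.OM5.SecB
import Pool.Agent.Lib.MP_0e6cae_nt.OM5.Tw
import Pool.Agent.Lib.MP_0e6cae_nt.OM5.Tr

/-!
The fixed points are isomorphic to their twists.
-/

namespace Pool.Agent.Lib.MP_0e6cae_nt.OM5

open SW DH

variable {N Q G : Type} [Group N] [Group Q] [Group G]

/-- The restriction along `j` of a module: `u` acts as `io j u`. -/
theorem resF_smul_range {C : Type} [CommGroup C] (j : C →* Q) (W : Type) [AddCommGroup W]
    [Module (MonoidAlgebra ℤ Q) W] (u : MonoidAlgebra ℤ C) :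
    Nat.card (Set.range fun y : ResF j W => u • y) =
      Nat.card (Set.range fun y : W => io j u • y) := rfl

/-- **The fixed points are isomorphic to their twists.** (`aut_of_card`, `card_range_eq`,
`sec_card`, `sec_idm`, `sec_class`.) -/
theorem aut_fix [Finite N] [Finite G] (π : N →* Q) (hπ : Function.Surjective π) (f : N →* G)
    (hf : Function.Injective f) {C : Type} [CommGroup C] [Finite C] (j : C →* Q)
    (hj : Function.Injective j) (x : C) (hR : Rat π f j) (ℓ : ℕ)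
    (hℓ : ℓ.Prime) (hℓG : ¬ ℓ ∣ Nat.card G) (V : Type) [AddCommGroup V]
    [Module (MonoidAlgebra ℤ G) V] [Finite V] (hV : ∀ y : V, ℓ • y = 0) :
    KF.Aut x (ResF j (FixM π hπ (ResF f V))) := by
  have hN := Fintype.ofFinite N
  have hG := Fintype.ofFinite G
  have hNG : Nat.card N ∣ Nat.card G := Subgroup.card_dvd_of_injective f hf
  have hQN : Nat.card Q ∣ Nat.card N := Subgroup.card_dvd_of_surjective π hπ
  have hCQ : Nat.card C ∣ Nat.card Q := Subgroup.card_dvd_of_injective j hj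
  have hℓC : ¬ ℓ ∣ Nat.card C := fun h => hℓG (h.trans (hCQ.trans (hQN.trans hNG)))
  have hℓK : ¬ ℓ ∣ Nat.card π.ker := fun h =>
    hℓG (h.trans ((Subgroup.card_subgroup_dvd_card π.ker).trans hNG))
  have hk : Nat.card V ≠ 0 := Nat.card_pos.ne'
  have hkV : Nat.card V < ℓ ^ Nat.card V := Nat.lt_pow_self hℓ.one_lt
  have hfin : Finite (FixM π hπ (ResF f V)) :=
    Finite.of_injective (fun y : FixM π hπ (ResF f V) => ((ResF.of f V).symm y.val : V))
      fun y z h => FixM.ext ((ResF.of f V).symm.injective h)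
  have hfin2 : Finite (ResF j (FixM π hπ (ResF f V))) := hfin
  have hcop : Nat.Coprime (Nat.card π.ker) (ℓ ^ Nat.card V) :=
    Nat.Coprime.pow_right _ ((Nat.Prime.coprime_iff_not_dvd hℓ).2 hℓK).symm
  obtain ⟨m, -, hm⟩ := Nat.exists_mul_mod_eq_one_of_coprime hcop
    (lt_of_le_of_lt (Nat.one_le_iff_ne_zero.2 hk) hkV)
  have hm' : m * Nat.card π.ker ≡ 1 [MOD ℓ ^ Nat.card V] := by
    unfold Nat.ModEq
    rw [mul_comm, hm]
    exact (Nat.mod_eq_of_lt (lt_of_le_of_lt (Nat.one_le_iff_ne_zero.2 hk) hkV)).symm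
  have hm'' : m * Nat.card π.ker ≡ 1 [MOD ℓ] := hm'.of_dvd (dvd_pow_self ℓ hk)
  refine aut_of_card x ℓ hℓ hℓC (Nat.card V) hk _ ?_ ?_
  · intro y
    refine FixM.ext ?_
    exact hV y.val
  · intro a ha u hu
    rw [resF_smul_range, resF_smul_range, ← sec_card π hπ f ℓ V hV m hm'' (io j u),
      ← sec_card π hπ f ℓ V hV m hm'' (io j (tw C a u))]
    refine card_range_eq ℓ hℓ hℓG V hV (Nat.card V) hk hkV _ _
      (sec_idm π hπ f _ m hm' _ (idm_io j _ u hu))
      (sec_idm π hπ f _ m hm' _ (idm_io j _ _ (idm_tw a _ u hu))) ?_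
    intro T hT
    exact sec_class π f j hj hR a ha m u T hT

end Pool.Agent.Lib.MP_0e6cae_nt.OM5
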