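import Pool.Agent.Lib.MP_0e6cae_nt.OM5.Fin

/-!
The statement of the main theorem with short definitions: the module `M^H` is described by the
property `IsFix`.
-/

open CategoryTheory NumberField IsDedekindDomain

namespace Pool.Agent.Lib.MP_0e6cae_nt.St

section fix

variable {G₀ : Type} [Group G₀]

/-- The coset `xH` as an element of `ℤ[N/H]`, for `x ∈ N`. -/
noncomputable def ZQ.of {N : Subgroup G₀} (H : Subgroup G₀) [(H.subgroupOf N).Normal] (x : N) :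
    ZQ N H :=
  MonoidAlgebra.single (QuotientGroup.mk x : N ⧸ H.subgroupOf N) (1 : ℤ)

/-- Here `M` is a `ℤ[Γ]`-module, `M'` is a `ℤ[N/H]`-module and `H ≤ N ≤ Γ`. The condition says
that `M'` is the module `M^H` of the elements of `M` fixed by `H`: some additive map `ι : M' → M`
is injective, its image consists of the elements `y` with `g y = y` for all `g ∈ H`, and
`ι (xH · z) = x · ι z` for all `x ∈ N`. -/
def IsFix (Γ N H : Subgroup G₀) [(H.subgroupOf N).Normal] (M : Type)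
    [AddCommGroup M] [Module (ZG Γ) M] (M' : Type) [AddCommGroup M'] [Module (ZQ N H) M'] :
    Prop :=
  ∃ ι : M' →+ M, Inj ι ∧ (∀ y, (∃ z, ι z = y) ↔ ∀ g : Γ, g.1 ∈ H → ZG.of g • y = y) ∧
    ∀ (g : Γ) (x : N), g.1 = x.1 → ∀ z, ι (ZQ.of H x • z) = ZG.of g • ι z

theorem res_of {Γ N : Subgroup G₀} (hN : N ≤ Γ) (M : Type) [AddCommGroup M] [Module (ZG Γ) M]
    (x : N) (g : Γ) (hx : g.1 = x.1) (y : M) :
    (show M from (ZG.of x • (show Res hN M from y) : Res hN M)) = ZG.of g • y := by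
  have h1 : ZG.incl hN (ZG.of x) = ZG.of g := by
    change MonoidAlgebra.mapDomainRingHom ℤ (Subgroup.inclusion hN)
      (MonoidAlgebra.single x (1 : ℤ)) = MonoidAlgebra.single g (1 : ℤ)
    have h2 : Subgroup.inclusion hN x = g := Subtype.ext hx.symm
    rw [← h2]
    simp
  rw [← h1]
  rfl

theorem isFix_fix {Γ N : Subgroup G₀} (hN : N ≤ Γ) (H : Subgroup G₀) (hH : H ≤ N)
    [(H.subgroupOf N).Normal] (M : Type) [AddCommGroup M] [Module (ZG Γ) M] :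
    IsFix Γ N H M (Fix hN H M) := by
  refine ⟨@OM5.FixM.valHom N (N ⧸ H.subgroupOf N) _ _ (quo N H) (quo_surjective N H) (Res hN M)
    (Res.grp hN M) (Res.mod hN M), ?_, ?_, ?_⟩
  · intro y z hyz
    exact Subtype.ext hyz
  · intro y
    constructor
    · rintro ⟨z, rfl⟩ g hg
      rw [← res_of hN M ⟨g.1, hH hg⟩ g rfl]
      refine @OM5.FixM.prop N (N ⧸ H.subgroupOf N) _ _ (quo N H) (quo_surjective N H) (Res hN M)
        (Res.grp hN M) (Res.mod hN M) z ⟨g.1, hH hg⟩ ?_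
      exact (QuotientGroup.eq_one_iff _).2 hg
    · intro hy
      refine ⟨@OM5.FixM.mk N (N ⧸ H.subgroupOf N) _ _ (quo N H) (quo_surjective N H) (Res hN M)
        (Res.grp hN M) (Res.mod hN M) y fun h hh => ?_, rfl⟩
      have h1 : (h : G₀) ∈ H := (QuotientGroup.eq_one_iff (N := H.subgroupOf N) h).1 hh
      exact (res_of hN M h ⟨h.1, hN h.2⟩ rfl y).trans (hy ⟨h.1, hN h.2⟩ h1)
  · intro g x hx z
    rw [← res_of hN M x g hx]
    exact @OM5.FixM.single_smul N (N ⧸ H.subgroupOf N) _ _ (quo N H) (quo_surjective N H)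
      (Res hN M) (Res.grp hN M) (Res.mod hN M) x 1 z

end fix

/-- **Main theorem.** -/
theorem main_fix (F : Type) [Field F] [NumberField F] (Γ N H : Subgroup (FAut F)) (hN : N ≤ Γ)
    (hH : H ≤ N) [(H.subgroupOf N).Normal] (x : FAut F) (hx : x ∈ N)
    (hNx : (∀ y ∈ N, ∃ i : ℤ, x ^ i * y ∈ H) ∨
      ∃ s ∈ N, s * s ∈ H ∧ s * x * s⁻¹ * x ∈ H ∧
        ∀ y ∈ N, ∃ i : ℤ, x ^ i * y ∈ H ∨ x ^ i * s * y ∈ H)
    (hΓ : (∀ a : ℕ, a.Coprime (Nat.card N) → ∀ (i : ℕ) (g : FAut F),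
        Nat.card {h : H // ∃ γ ∈ Γ, γ * (x ^ i * h) * γ⁻¹ = g} =
          Nat.card {h : H // ∃ γ ∈ Γ, γ * (x ^ (i * a) * h) * γ⁻¹ = g}) ∨
      (∀ y ∈ N, ∀ a : ℕ, a.Coprime (orderOf y) → ∃ γ ∈ Γ, γ * y * γ⁻¹ = y ^ a) ∨
      ∃ m : ℕ, Nonempty (Γ ≃* Equiv.Perm (Fin m)))
    (S : Set (FinPl F)) (hSfin : S.Finite) (E : TwoExt Γ S)
    (hA : Module.Finite (ZG Γ) E.A) (hA' : FPD (ZG Γ) E.A)
    (hB : Module.Finite (ZG Γ) E.B) (hB' : FPD (ZG Γ) E.B) :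
    ∃ A B : FPMod (ZQ N H), IsFix Γ N H E.A A.carrier ∧ IsFix Γ N H E.B B.carrier ∧
      K0.mk A = K0.mk B := by
  obtain ⟨h₁, h₂, h₃, h₄, h⟩ := OM5.main_sec F Γ N H hN hH x hx hNx hΓ S hSfin E hA hA' hB hB'
  exact ⟨⟨Fix hN H E.A, h₁, h₂⟩, ⟨Fix hN H E.B, h₃, h₄⟩, isFix_fix hN H hH E.A,
    isFix_fix hN H hH E.B, h⟩

end Pool.Agent.Lib.MP_0e6cae_nt.St
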