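import Pool.Agent.Lib.MP_0e6cae_nt.OM5.Fix

/-!
Surjectivity on the fixed points.
-/

open CategoryTheory

namespace Pool.Agent.Lib.MP_0e6cae_nt.OM5

open SW

/-- `L` is weakly projective over `ℤ[H]`. -/
def WP (H : Type) [Group H] [Fintype H] (L : Type) [AddCommGroup L]
    [Module (MonoidAlgebra ℤ H) L] : Prop :=
  ∃ θ : L →+ L, ∀ y : L, ∑ h : H, (MonoidAlgebra.single h (1 : ℤ) : MonoidAlgebra ℤ H) •
    θ ((MonoidAlgebra.single h⁻¹ (1 : ℤ) : MonoidAlgebra ℤ H) • y) = y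

/-- `H¹(H, L) = 0` for `L` weakly projective: `f` over `a`, `c(h) = h f - f ∈ ker ψ`,
`b = ∑ h θ(h⁻¹ c(h))` has `g b = b - c(g)` (substitute `h = g⁻¹ h'`,
`g c(g⁻¹ h') = c(h') - c(g)`), so `f + b` is fixed. -/
theorem exists_fixed (H : Type) [Group H] [Fintype H] {F A : Type} [AddCommGroup F]
    [Module (MonoidAlgebra ℤ H) F] [AddCommGroup A] [Module (MonoidAlgebra ℤ H) A]
    (ψ : F →ₗ[MonoidAlgebra ℤ H] A) (hψ : Function.Surjective ψ)
    (hL : WP H (LinearMap.ker ψ)) (a : A)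
    (ha : ∀ h : H, (MonoidAlgebra.single h (1 : ℤ) : MonoidAlgebra ℤ H) • a = a) :
    ∃ f : F, (∀ h : H, (MonoidAlgebra.single h (1 : ℤ) : MonoidAlgebra ℤ H) • f = f) ∧
      ψ f = a := by
  obtain ⟨θ, hθ⟩ := hL
  obtain ⟨f₀, hf₀⟩ := hψ a
  let c : H → LinearMap.ker ψ := fun h =>
    ⟨(MonoidAlgebra.single h (1 : ℤ) : MonoidAlgebra ℤ H) • f₀ - f₀, by
      rw [LinearMap.mem_ker, map_sub, map_smul, hf₀, ha, sub_self]⟩
  have hc : ∀ g h : H, (MonoidAlgebra.single g (1 : ℤ) : MonoidAlgebra ℤ H) • c (g⁻¹ * h) =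
      c h - c g := by
    intro g h
    apply Subtype.ext
    change (MonoidAlgebra.single g (1 : ℤ) : MonoidAlgebra ℤ H) •
      ((MonoidAlgebra.single (g⁻¹ * h) (1 : ℤ) : MonoidAlgebra ℤ H) • f₀ - f₀) =
      ((MonoidAlgebra.single h (1 : ℤ) : MonoidAlgebra ℤ H) • f₀ - f₀) -
      ((MonoidAlgebra.single g (1 : ℤ) : MonoidAlgebra ℤ H) • f₀ - f₀)
    rw [smul_sub, single_smul_smul, mul_inv_cancel_left]
    abel
  set b : LinearMap.ker ψ := ∑ h : H, (MonoidAlgebra.single h (1 : ℤ) : MonoidAlgebra ℤ H) •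
    θ ((MonoidAlgebra.single h⁻¹ (1 : ℤ) : MonoidAlgebra ℤ H) • c h) with hb
  have hgb : ∀ g : H, (MonoidAlgebra.single g (1 : ℤ) : MonoidAlgebra ℤ H) • b = b - c g := by
    intro g
    have h1 : (MonoidAlgebra.single g (1 : ℤ) : MonoidAlgebra ℤ H) • b =
        ∑ h : H, (MonoidAlgebra.single h (1 : ℤ) : MonoidAlgebra ℤ H) •
          θ ((MonoidAlgebra.single h⁻¹ (1 : ℤ) : MonoidAlgebra ℤ H) • (c h - c g)) := by
      rw [hb, Finset.smul_sum]
      refine Fintype.sum_equiv (Equiv.mulLeft g) _ _ fun h => ?_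
      have h2 := hc g (g * h)
      rw [inv_mul_cancel_left] at h2
      change _ = (MonoidAlgebra.single (g * h) (1 : ℤ) : MonoidAlgebra ℤ H) •
        θ ((MonoidAlgebra.single (g * h)⁻¹ (1 : ℤ) : MonoidAlgebra ℤ H) • (c (g * h) - c g))
      rw [← h2, smul_smul, smul_smul, MonoidAlgebra.single_mul_single,
        MonoidAlgebra.single_mul_single, one_mul, mul_inv_rev, inv_mul_cancel_right]
    rw [h1]
    have h3 : ∀ h : H, (MonoidAlgebra.single h (1 : ℤ) : MonoidAlgebra ℤ H) •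
        θ ((MonoidAlgebra.single h⁻¹ (1 : ℤ) : MonoidAlgebra ℤ H) • (c h - c g)) =
        (MonoidAlgebra.single h (1 : ℤ) : MonoidAlgebra ℤ H) •
          θ ((MonoidAlgebra.single h⁻¹ (1 : ℤ) : MonoidAlgebra ℤ H) • c h) -
        (MonoidAlgebra.single h (1 : ℤ) : MonoidAlgebra ℤ H) •
          θ ((MonoidAlgebra.single h⁻¹ (1 : ℤ) : MonoidAlgebra ℤ H) • c g) := by
      intro h
      rw [smul_sub, map_sub, smul_sub]
    rw [Finset.sum_congr rfl fun h _ => h3 h, Finset.sum_sub_distrib, hθ, ← hb]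
  refine ⟨f₀ + b.1, fun g => ?_, ?_⟩
  · have h1 : (MonoidAlgebra.single g (1 : ℤ) : MonoidAlgebra ℤ H) • b.1 = b.1 -
        ((MonoidAlgebra.single g (1 : ℤ) : MonoidAlgebra ℤ H) • f₀ - f₀) :=
      congrArg Subtype.val (hgb g)
    rw [smul_add, h1]
    abel
  · have h1 : ψ b.1 = 0 := b.2
    rw [map_add, h1, add_zero, hf₀]

/-- (`ℤ[H]^ι`: `θ(y) = (coefficient of y at 1) • 1`; a direct summand of a free module:
`Module.Projective` gives `s : L → (L →₀ ℤ[H])` with `Finsupp.linearCombination s = id`.) -/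
theorem wp_projective (H : Type) [Group H] [Fintype H] (L : Type) [AddCommGroup L]
    [Module (MonoidAlgebra ℤ H) L] (hL : Module.Projective (MonoidAlgebra ℤ H) L) : WP H L := by
  classical
  obtain ⟨s, hs⟩ := Module.projective_def'.1 hL
  let p : MonoidAlgebra ℤ H →+ MonoidAlgebra ℤ H :=
    { toFun := fun y => MonoidAlgebra.single 1 (y.coeff 1)
      map_zero' := by simp
      map_add' := fun y z => by
        rw [MonoidAlgebra.coeff_add, Finsupp.add_apply, MonoidAlgebra.single_add] }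
  have hp : ∀ y : MonoidAlgebra ℤ H, ∑ h : H,
      (MonoidAlgebra.single h (1 : ℤ) : MonoidAlgebra ℤ H) •
        p ((MonoidAlgebra.single h⁻¹ (1 : ℤ) : MonoidAlgebra ℤ H) • y) = y := by
    intro y
    have h1 : ∀ h : H, (MonoidAlgebra.single h (1 : ℤ) : MonoidAlgebra ℤ H) •
        p ((MonoidAlgebra.single h⁻¹ (1 : ℤ) : MonoidAlgebra ℤ H) • y) =
        MonoidAlgebra.single h (y.coeff h) := by
      intro h
      have h2 : ((MonoidAlgebra.single h⁻¹ (1 : ℤ) : MonoidAlgebra ℤ H) * y).coeff 1 =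
          1 * y.coeff h := by
        refine MonoidAlgebra.coeff_single_mul_eq_mul_coeff h ?_
        intro m _
        exact ⟨fun h3 => by rw [inv_mul_eq_one] at h3; exact h3.symm,
          fun h3 => by rw [h3, inv_mul_cancel]⟩
      change (MonoidAlgebra.single h (1 : ℤ) : MonoidAlgebra ℤ H) *
        MonoidAlgebra.single 1 (((MonoidAlgebra.single h⁻¹ (1 : ℤ) :
          MonoidAlgebra ℤ H) * y).coeff 1) = _
      rw [MonoidAlgebra.single_mul_single, mul_one, one_mul, h2, one_mul]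
    rw [Finset.sum_congr rfl fun h _ => h1 h]
    ext g
    rw [MonoidAlgebra.coeff_sum, Finset.sum_apply', Finset.sum_eq_single g]
    · simp
    · intro h _ hh
      rw [MonoidAlgebra.coeff_single, Finsupp.single_apply, if_neg hh]
    · intro h
      exact absurd (Finset.mem_univ g) h
  let P : (L →₀ MonoidAlgebra ℤ H) →+ (L →₀ MonoidAlgebra ℤ H) := Finsupp.mapRange.addMonoidHom p
  have hP : ∀ w : L →₀ MonoidAlgebra ℤ H, ∑ h : H,
      (MonoidAlgebra.single h (1 : ℤ) : MonoidAlgebra ℤ H) •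
        P ((MonoidAlgebra.single h⁻¹ (1 : ℤ) : MonoidAlgebra ℤ H) • w) = w := by
    intro w
    ext1 i
    rw [Finset.sum_apply']
    exact hp (w i)
  refine ⟨(Finsupp.linearCombination (MonoidAlgebra ℤ H) (id : L → L)).toAddMonoidHom.comp
    (P.comp s.toAddMonoidHom), fun y => ?_⟩
  have h1 : ∀ h : H, (MonoidAlgebra.single h (1 : ℤ) : MonoidAlgebra ℤ H) •
      ((Finsupp.linearCombination (MonoidAlgebra ℤ H) (id : L → L)).toAddMonoidHom.comp
        (P.comp s.toAddMonoidHom)) ((MonoidAlgebra.single h⁻¹ (1 : ℤ) : MonoidAlgebra ℤ H) • y) =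
      Finsupp.linearCombination (MonoidAlgebra ℤ H) (id : L → L)
        ((MonoidAlgebra.single h (1 : ℤ) : MonoidAlgebra ℤ H) •
          P ((MonoidAlgebra.single h⁻¹ (1 : ℤ) : MonoidAlgebra ℤ H) • s y)) := by
    intro h
    have h2 : s ((MonoidAlgebra.single h⁻¹ (1 : ℤ) : MonoidAlgebra ℤ H) • y) =
        (MonoidAlgebra.single h⁻¹ (1 : ℤ) : MonoidAlgebra ℤ H) • s y := map_smul s _ _
    rw [LinearMap.map_smul, ← h2]
    rfl
  rw [Finset.sum_congr rfl fun h _ => h1 h, ← map_sum, hP]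
  exact LinearMap.congr_fun hs y

/-- (`θ` = multiplication by an inverse of `|H|` modulo `|L|`.) -/
theorem wp_finite (H : Type) [Group H] [Fintype H] (L : Type) [AddCommGroup L]
    [Module (MonoidAlgebra ℤ H) L] [Finite L] (hc : (Nat.card L).Coprime (Nat.card H)) :
    WP H L := by
  obtain ⟨m, hm⟩ : ∃ m : ℤ, (Nat.card H : ℤ) * m ≡ 1 [ZMOD (Nat.card L : ℤ)] :=
    Int.mod_coprime hc.symm
  refine ⟨m • AddMonoidHom.id L, fun y => ?_⟩
  have h1 : ∀ h : H, (MonoidAlgebra.single h (1 : ℤ) : MonoidAlgebra ℤ H) •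
      (m • AddMonoidHom.id L) ((MonoidAlgebra.single h⁻¹ (1 : ℤ) : MonoidAlgebra ℤ H) • y) =
      m • y := by
    intro h
    rw [AddMonoidHom.smul_apply, AddMonoidHom.id_apply, smul_comm, single_smul_smul,
      mul_inv_cancel, single_one_smul]
  rw [Finset.sum_congr rfl fun h _ => h1 h, Finset.sum_const, Finset.card_univ,
    ← Nat.card_eq_fintype_card, ← natCast_zsmul, smul_smul]
  obtain ⟨c, hc'⟩ := hm.symm.dvd
  have h2 : (Nat.card H : ℤ) * m = 1 + c * (Nat.card L : ℤ) := by linarith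
  rw [h2, add_smul, one_smul, mul_smul, natCast_zsmul, card_nsmul_eq_zero', smul_zero, add_zero]

end Pool.Agent.Lib.MP_0e6cae_nt.OM5
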